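import Pool.Agent.P.MP_5f3b23_lc.ZCard

set_option autoImplicit false

/-! Normal fine ultrafilters in a model of ZFC. -/

open Pool.Agent.Lib.PosetForcing

namespace Pool.Agent.P.MP_5f3b23_lc.Zf

universe v

variable {M : Type v} [Zm M]

theorem Df.comp2 {R : M → M → Prop} (hR : Df fun v => R (v 0) (v 1)) (s t : (ℕ → M) → M)
    [hs : Tm s] [ht : Tm t] : Df fun v => R (s v) (t v) :=
  hR.out.subst (fun i => Nat.casesOn i s fun _ => t) fun i => by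
    cases i with
    | zero => exact hs
    | succ j => exact ht

/-- a normal fine ultrafilter `U` on a family `I` of subsets of `K` -/
structure Nfu (U I K : M) : Prop where
  sub : ∀ x, x ∈ I → Sub x K
  ult : IsUltra mm U I
  fine : Fine mm U I K
  norm : Normal mm U I K
  ne : ∃ a, a ∈ K

namespace Nfu

variable {U I K : M} (N : Nfu U I K)
include N

theorem mono {P Q : M → Prop} [Df fun v => P (v 0)] [Df fun v => Q (v 0)] (h : sep I P ∈ U)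
    (hPQ : ∀ x, x ∈ I → P x → Q x) : sep I Q ∈ U :=
  N.ult.2.2.2.1 _ _ h (fun x hx => mem_sep.2 ⟨(mem_sep.1 hx).1, hPQ x (mem_sep.1 hx).1
    (mem_sep.1 hx).2⟩) fun _ hx => (mem_sep.1 hx).1

theorem and {P Q : M → Prop} [hP : Df fun v => P (v 0)] [hQ : Df fun v => Q (v 0)]
    (h : sep I P ∈ U) (h' : sep I Q ∈ U) : (sep I fun x => P x ∧ Q x) ∈ U :=
  N.ult.2.2.2.2.1 _ _ _ h h' fun x => by
    show x ∈ _ ↔ x ∈ _ ∧ x ∈ _
    simp only [mem_sep]; tauto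

theorem ex {P : M → Prop} [Df fun v => P (v 0)] (h : sep I P ∈ U) : ∃ x, x ∈ I ∧ P x :=
  let ⟨x, hx⟩ := N.ult.2.2.1 _ h; ⟨x, mem_sep.1 hx⟩

theorem compl {P : M → Prop} [hP : Df fun v => P (v 0)] (h : sep I P ∉ U) :
    (sep I fun x => ¬ P x) ∈ U :=
  (N.ult.2.2.2.2.2 (sep I P) _ (fun _ hx => (mem_sep.1 hx).1) fun x => by
    show x ∈ _ ↔ x ∈ _ ∧ ¬ x ∈ _
    simp only [mem_sep]; tauto).resolve_left h

theorem fin {a : M} (ha : a ∈ K) : (sep I fun x => a ∈ x) ∈ U :=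
  N.fine a _ ha fun _ => mem_sep

theorem const (F : M → M) [hF : Tm fun v => F (v 0)] (h1 : ∀ x, x ∈ I → F x ∈ K)
    (h2 : (sep I fun x => F x ∈ x) ∈ U) : ∃ a, a ∈ K ∧ (sep I fun x => F x = a) ∈ U := by
  obtain ⟨a, B, hB, hU⟩ := N.norm (lam I F) _ (isFun_lam h1) (fun x => by
    show x ∈ _ ↔ _
    simp only [mem_sep, app_lam]
    exact ⟨fun h => ⟨_, ⟨h.1, rfl⟩, h.2⟩, fun ⟨y, h, h'⟩ => ⟨h.1, h.2 ▸ h'⟩⟩) h2
  have e : B = sep I fun x => F x = a := ext fun x => by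
    rw [mem_sep]
    exact (hB x).trans (app_lam.trans (and_congr_right fun _ => eq_comm))
  rw [e] at hU
  obtain ⟨x, hx, hxa⟩ := N.ex hU
  exact ⟨a, hxa ▸ h1 x hx, hU⟩

theorem diag (P : M → M → Prop) [hP : Df fun v => P (v 0) (v 1)]
    (h : ∀ a, a ∈ K → sep I (P a) ∈ U) : (sep I fun x => ∀ a, a ∈ x → P a x) ∈ U := by
  have hP' : ∀ (s t : (ℕ → M) → M) [Tm s] [Tm t], Df fun v => P (s v) (t v) :=
    fun s t _ _ => hP.comp2 s t
  by_contra hn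
  have hZ := N.compl hn
  obtain ⟨f, hf⟩ := choice I K (fun x a => (¬ ∀ a, a ∈ x → P a x) → a ∈ x ∧ ¬ P a x)
    fun x hx => by
      by_cases h1 : ∀ a, a ∈ x → P a x
      · obtain ⟨a, ha⟩ := N.ne
        exact ⟨a, ha, fun h => (h h1).elim⟩
      · push Not at h1
        obtain ⟨a, ha, h2⟩ := h1
        exact ⟨a, N.sub x hx a ha, fun _ => ⟨ha, h2⟩⟩
  obtain ⟨a, ha, hU⟩ := N.const (fun x => ap f x) (fun x hx => (hf x hx).1)
    (N.mono hZ fun x hx h1 => ((hf x hx).2 h1).1)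
  obtain ⟨x, hx, h1, h2, h3⟩ := N.ex (N.and hZ (N.and hU (h a ha)))
  exact ((hf x hx).2 h1).2 (h2 ▸ h3)

/-- for almost all `x`, no cofinal subset of `x` injects into `x ∩ l` -/
theorem big_cof {l : M} (hK : Od K) (hl : Sub l K)
    (hb : ∀ s, Sub s K → Le s l → ∃ g, g ∈ K ∧ ∀ a, a ∈ s → a ∈ g) :
    (sep I fun x => ∀ B, Sub B x → (∀ a, a ∈ x → ∃ b, b ∈ B ∧ (a ∈ b ∨ a = b)) →
      ¬ Le B (sep x fun y => y ∈ l)) ∈ U := by
  by_contra hn
  have hZ := N.compl hn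
  obtain ⟨G, hG⟩ := choice I (pow (prd l K)) (fun x g => (∀ a, a ∈ l → ap g a ∈ K) ∧
      ((¬ ∀ B, Sub B x → (∀ a, a ∈ x → ∃ b, b ∈ B ∧ (a ∈ b ∨ a = b)) →
        ¬ Le B (sep x fun y => y ∈ l)) → (∀ a, a ∈ l → a ∈ x → ap g a ∈ x) ∧
          ∀ c, c ∈ x → ∃ a, a ∈ l ∧ a ∈ x ∧ (c ∈ ap g a ∨ c = ap g a))) fun x hx => by
    have hlam : ∀ g : M, (∀ a, a ∈ l → ap g a ∈ K) → (lam l fun a => ap g a) ∈ pow (prd l K) :=
      fun g hg => mem_pow.2 fun p hp => by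
        obtain ⟨a, ha, rfl⟩ := mem_lam.1 hp
        exact mem_prd.2 ⟨a, _, ha, hg a ha, rfl⟩
    by_cases h1 : ∀ B, Sub B x → (∀ a, a ∈ x → ∃ b, b ∈ B ∧ (a ∈ b ∨ a = b)) →
        ¬ Le B (sep x fun y => y ∈ l)
    · obtain ⟨g, hg⟩ := choice l K (fun a b => a = b) fun a ha => ⟨a, hl a ha, rfl⟩
      exact ⟨_, hlam g fun a ha => (hg a ha).1,
        fun a ha => by rw [ap_lam ha]; exact (hg a ha).1, fun h => (h h1).elim⟩
    · push Not at h1
      obtain ⟨B, hB, hcof, i, hi1, hi2⟩ := h1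
      obtain ⟨g, hg⟩ := choice l K (fun a b => (a ∈ x → b ∈ x) ∧ ∀ b', b' ∈ B → ap i b' = a →
          b = b') fun a ha => by
        by_cases h2 : ∃ b, b ∈ B ∧ ap i b = a
        · obtain ⟨b, hb, e⟩ := h2
          exact ⟨b, N.sub x hx b (hB b hb), fun _ => hB b hb,
            fun b' hb' e' => hi2 b b' hb hb' (e.trans e'.symm)⟩
        · exact ⟨a, hl a ha, fun h => h, fun b' hb' e => (h2 ⟨b', hb', e⟩).elim⟩
      refine ⟨_, hlam g fun a ha => (hg a ha).1,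
        fun a ha => by rw [ap_lam ha]; exact (hg a ha).1, fun _ => ⟨fun a ha hax => ?_,
          fun c hc => ?_⟩⟩
      · rw [ap_lam ha]; exact (hg a ha).2.1 hax
      · obtain ⟨b, hb, hcb⟩ := hcof c hc
        obtain ⟨h3, h4⟩ := mem_sep.1 (hi1 b hb)
        refine ⟨ap i b, h4, h3, ?_⟩
        rw [ap_lam h4, (hg _ h4).2.2 b hb rfl]
        exact hcb
  obtain ⟨g, hg⟩ := choice l K (fun a b => (sep I fun x => ap (ap G x) a = b) ∈ U) fun a ha =>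
    N.const (fun x => ap (ap G x) a) (fun x hx => (hG x hx).2.1 a ha)
      (N.mono (N.and hZ (N.fin (hl a ha))) fun x hx h => ((hG x hx).2.2 h.1).1 a ha h.2)
  have hD := N.diag (fun a x => a ∈ l → ap (ap G x) a = ap g a) fun a ha => by
    by_cases h : a ∈ l
    · exact N.mono (hg a h).2 fun x _ e _ => e
    · exact N.mono (N.fin ha) fun x _ _ h' => (h h').elim
  obtain ⟨c, hc, hcb⟩ := hb (img l fun a => ap g a)
    (fun y hy => by obtain ⟨a, ha, rfl⟩ := mem_img.1 hy; exact (hg a ha).1)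
    (le_of_surj (fun a => ap g a) fun y hy => mem_img.1 hy)
  obtain ⟨x, hx, h1, h2, h3⟩ := N.ex (N.and hZ (N.and hD (N.fin hc)))
  obtain ⟨a, ha, hax, h4⟩ := ((hG x hx).2.2 h1).2 c h3
  rw [h2 a hax ha] at h4
  have h5 := hcb _ (mem_img.2 ⟨a, ha, rfl⟩)
  rcases h4 with h4 | h4
  · exact (hK.el hc).asymm h5 h4
  · exact not_mem_self c (by rw [h4] at h5 ⊢; exact h5)

end Nfu

end Pool.Agent.P.MP_5f3b23_lc.Zf
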