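import Pool.Agent.P.MP_5f3b23_lc.Defs

namespace Pool.Agent.P.MP_5f3b23_lc

open Cardinal

universe u

/-- The Chang-type property `(a, b) ↠ (c, e)`: every structure of size `a` for a countable
first-order language, with a unary relation holding of exactly `b` elements, has an elementary
substructure of size `c` in which the relation holds of exactly `e` elements. -/
def Chang (a b c e : Cardinal.{u}) : Prop :=
  ∀ (L : FirstOrder.Language.{0, 0}) [Countable L.Symbols] (r : L.Relations 1) (M : Type u) [L.Structure M],
    #M = a → #{x : M | FirstOrder.Language.Structure.RelMap r ![x]} = b →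
      ∃ N : L.ElementarySubstructure M,
        #N = c ∧ #{x : M | x ∈ N ∧ FirstOrder.Language.Structure.RelMap r ![x]} = e

end Pool.Agent.P.MP_5f3b23_lc
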