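import Pool.Agent.P.MP_5f3b23_lc.Core2
import Pool.Agent.P.MP_5f3b23_lc.ChangDefs

namespace Pool.Agent.P.MP_5f3b23_lc

open Cardinal Set

universe u

/-- countably many function symbols in each arity, one relation symbol in each arity -/
def algLang : FirstOrder.Language.{0, 0} := ⟨fun _ => ℕ, fun _ => Unit⟩

instance : Countable algLang.Symbols := by
  unfold FirstOrder.Language.Symbols algLang
  infer_instance

/-- the structure given by countably many binary functions and a set -/
@[reducible] def algStr {K : Type u} (k₀ : K) (H : ℕ → K → K → K) (R : Set K) :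
    algLang.Structure K where
  funMap := fun {n} (i : ℕ) x => if h : 2 ≤ n then H i (x ⟨0, by omega⟩) (x ⟨1, by omega⟩) else k₀
  RelMap := fun {_} _ x => ∀ i, x i ∈ R

theorem Chang.algebra {a b c e : Cardinal.{u}} (h : Chang a b c e) {K : Type u} (k₀ : K)
    (hK : #K = a) (R : Set K) (hR : #R = b) (H : ℕ → K → K → K) :
    ∃ N : Set K, (∀ i, ∀ x ∈ N, ∀ y ∈ N, H i x y ∈ N) ∧ #N = c ∧ #(N ∩ R : Set K) = e := by
  letI := algStr k₀ H R
  have hrel : ∀ x : K, FirstOrder.Language.Structure.RelMap (L := algLang) (n := 1) () ![x] ↔ x ∈ R := by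
    intro x
    change (∀ i, ![x] i ∈ R) ↔ _
    simp
  obtain ⟨N, hN1, hN2⟩ := h algLang (show algLang.Relations 1 from ()) K hK (by
    have : {x : K | FirstOrder.Language.Structure.RelMap (L := algLang) (n := 1) () ![x]} = R := by
      ext x; exact hrel x
    rw [this]; exact hR)
  refine ⟨N, ?_, hN1, ?_⟩
  · intro i x hx y hy
    have := N.toSubstructure.fun_mem (n := 2) (show algLang.Functions 2 from i) ![x, y] (by
      intro j; fin_cases j
      · exact hx
      · exact hy)
    exact this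
  · have : ((N : Set K) ∩ R : Set K) =
        {x : K | x ∈ N ∧ FirstOrder.Language.Structure.RelMap (L := algLang) (n := 1) () ![x]} := by
      ext x
      exact and_congr Iff.rfl (hrel x).symm
    rw [this]; exact hN2

theorem chang_main {lam mu : Cardinal.{u}} (hlam : lam.IsStrongLimit) (hcof : lam.ord.cof = ℵ₀)
    (hmu : ℵ₀ ≤ mu) (hlt : mu < lam) (hCh : Chang (Order.succ lam) lam (Order.succ mu) mu)
    (d : (Order.succ lam).ord.ToType → (Order.succ lam).ord.ToType → lam.ord.ToType) :
    IsStationary ({α | Order.cof (Iio α) = Order.succ mu} \ injSet d) := by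
  classical
  have h0 : ℵ₀ ≤ lam := hlam.aleph0_le
  intro C hC
  obtain ⟨S, hS, hSc⟩ := Order.exists_cof_eq lam.ord.ToType
  rw [Ordinal.cof_toType, hcof] at hSc
  have hK : #(Order.succ lam).ord.ToType = Order.succ lam := Cardinal.mk_ord_toType _
  obtain ⟨R, hR⟩ : ∃ R : Set (Order.succ lam).ord.ToType, #R = lam :=
    le_mk_iff_exists_set.1 (by rw [hK]; exact Order.le_succ lam)
  obtain ⟨F, G, H⟩ := core2 hlam (ι := S) (mk_Iic_le h0) (fun _ => bounded_of_le h0)
    (Cardinal.mk_ord_toType lam) (fun i => Iic i.1) (fun i => mk_Iic_lt h0 hlam.isSuccLimit _)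
    (fun x => by obtain ⟨y, hy, hxy⟩ := hS x; exact ⟨⟨y, hy⟩, hxy⟩)
    (hSc.le.trans h0) R hR d C hC
  have hRne : R.Nonempty := by
    rw [← Set.nonempty_coe_sort, ← mk_ne_zero_iff, hR]
    exact (aleph0_pos.trans_le h0).ne'
  obtain ⟨r₀, hr₀⟩ := hRne
  -- injections of initial segments into `R`
  have hE : ∀ a : (Order.succ lam).ord.ToType, ∃ E : (Order.succ lam).ord.ToType →
      (Order.succ lam).ord.ToType, (∀ b, E b ∈ R) ∧ InjOn E (Iic a) := by
    intro a
    obtain ⟨f⟩ := (Cardinal.le_def (Iic a) R).1 ((mk_Iic_le h0 a).trans hR.ge)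
    refine ⟨fun b => if h : b ∈ Iic a then (f ⟨b, h⟩).1 else r₀, fun b => ?_, ?_⟩
    · by_cases h : b ∈ Iic a
      · simp only [h, dif_pos]; exact (f _).2
      · simp only [h, dif_neg, not_false_eq_true]; exact hr₀
    · intro b hb c hc hbc
      simp only [hb, hc, dif_pos] at hbc
      exact congrArg Subtype.val (f.injective (Subtype.ext hbc))
  choose E hER hEinj using hE
  have hScount : Countable S := mk_le_aleph0_iff.1 hSc.le
  have hSne : Nonempty S := mk_ne_zero_iff.1 (by rw [hSc]; exact aleph0_ne_zero)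
  obtain ⟨p, hp⟩ := exists_surjective_nat (S × S)
  obtain ⟨N, hN, hNc, hNR⟩ := hCh.algebra r₀ hK R hR
    (fun i => match i with
      | 0 => fun a _ => G a
      | 1 => fun a b => E a b
      | (j + 2) => F (p j).1 (p j).2)
  have hNne : N.Nonempty := by
    rw [← Set.nonempty_coe_sort, ← mk_ne_zero_iff, hNc]
    exact ((aleph0_pos.trans_le hmu).trans (Order.lt_succ mu)).ne'
  obtain ⟨α, hαC, hα1, hα2, hα3⟩ := H N hNne (hNc.le.trans (Order.succ_le_of_lt hlt))
    (fun k n a ha b hb => by
      obtain ⟨j, hj⟩ := hp (k, n)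
      have := hN (j + 2) a ha b hb
      simp only [hj] at this
      exact this)
    (fun a ha => hN 0 a ha a ha)
    (fun B hBN hB => by
      by_contra hle
      rw [not_lt, hNR] at hle
      have h1 : N ⊆ ⋃ b : B, (N ∩ Iic b.1) := fun a ha => by
        obtain ⟨b, hb, hab⟩ := hB a ha
        exact mem_iUnion.2 ⟨⟨b, hb⟩, ha, hab⟩
      have h2 : #N ≤ mu := by
        refine (mk_le_mk_of_subset h1).trans ((mk_iUnion_le _).trans ?_)
        refine mul_le_of_le hmu hle (ciSup_le' fun b => ?_)
        rw [← hNR]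
        exact mk_le_of_injective
          (f := fun x : (N ∩ Iic b.1 : Set _) =>
            (⟨E b.1 x.1, hN 1 b.1 (hBN b.2) x.1 x.2.1, hER _ _⟩ : (N ∩ R : Set _)))
          fun x y hxy => Subtype.ext (hEinj b.1 x.2.2 y.2.2
            (congrArg (fun z : (N ∩ R : Set _) => z.1) hxy))
      rw [hNc] at h2
      exact absurd h2 (not_le.2 (Order.lt_succ mu)))
  refine ⟨α, ⟨?_, hα2⟩, hαC⟩
  rw [hNR] at hα1
  rw [hNc] at hα3
  exact le_antisymm hα3 (Order.succ_le_of_lt hα1)

end Pool.Agent.P.MP_5f3b23_lc
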