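import Pool.Agent.P.MP_5f3b23_lc.Defs

namespace Pool.Agent.P.MP_5f3b23_lc

open Cardinal Set

universe u

theorem mk_Iic_lt {c : Cardinal.{u}} (hc : ℵ₀ ≤ c) (hl : Order.IsSuccLimit c) (i : c.ord.ToType) :
    #(Iic i) < c := by
  have h1 : #(Iio i) < c := Cardinal.mk_Iio_toType_ord_lt i
  have h2 : (Iic i : Set c.ord.ToType) = insert i (Iio i) := by
    ext x; simp [le_iff_lt_or_eq, or_comm]
  rw [h2]
  refine lt_of_le_of_lt (mk_insert_le) ?_
  exact add_lt_of_lt hc h1 (one_lt_aleph0.trans_le hc)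

theorem mk_Iic_le {c : Cardinal.{u}} (hc : ℵ₀ ≤ c) (i : (Order.succ c).ord.ToType) :
    #(Iic i) ≤ c := by
  have h1 : #(Iio i) < Order.succ c := Cardinal.mk_Iio_toType_ord_lt i
  have h2 : (Iic i : Set (Order.succ c).ord.ToType) = insert i (Iio i) := by
    ext x; simp [le_iff_lt_or_eq, or_comm]
  rw [h2]
  refine le_trans (mk_insert_le) ?_
  exact add_le_of_le hc (Order.lt_succ_iff.1 h1) (one_le_aleph0.trans hc)

/-- a set of size at most `c` is strictly bounded in `c⁺`. -/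
theorem bounded_of_le {c : Cardinal.{u}} (hc : ℵ₀ ≤ c) {s : Set (Order.succ c).ord.ToType}
    (hs : #s ≤ c) : ∃ γ, ∀ a ∈ s, a < γ := by
  by_contra h
  push Not at h
  have hcof : IsCofinal s := fun γ => by
    obtain ⟨a, ha, hle⟩ := h γ
    exact ⟨a, ha, hle⟩
  have h1 := Order.cof_le hcof
  rw [Ordinal.cof_toType, (isRegular_succ hc).cof_ord] at h1
  exact absurd (h1.trans hs) (not_le.2 (Order.lt_succ c))

/-- The combinatorial core. -/
theorem core {lam : Cardinal.{u}} (hlam : lam.IsStrongLimit) {ι K L : Type u}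
    [LinearOrder K] [WellFoundedLT K] (hK1 : ∀ γ : K, #(Iic γ) ≤ lam)
    (hK2 : ∀ s : Set K, #s ≤ lam → ∃ γ, ∀ a ∈ s, a < γ) (hL : #L = lam)
    (Lc : ι → Set L) (hLc : ∀ i, #(Lc i) < lam) (hcov : ∀ x, ∃ i, x ∈ Lc i)
    (hι : #ι ≤ lam) (R : Set K) (hR : #R = lam) (d : K → K → L) (C : Set K) (hC : IsClub C) :
    ∃ (F : ι → ι → K → K → K) (G : K → K),
      ∀ N : Set K, N.Nonempty → #N ≤ lam →
        (∀ k n, ∀ a ∈ N, ∀ b ∈ N, F k n a b ∈ N) → (∀ a ∈ N, G a ∈ N) →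
        (∀ B ⊆ N, (∀ a ∈ N, ∃ b ∈ B, a ≤ b) → #(N ∩ R : Set K) < #B) →
        ∃ α ∈ C, #(N ∩ R : Set K) < Order.cof (Iio α) ∧ α ∉ injSet d := by
  classical
  have h0 : ℵ₀ ≤ lam := hlam.aleph0_le
  -- enumerations of initial segments
  have he : ∀ γ : K, ∃ e : L → K, Iic γ ⊆ range e := by
    intro γ
    have h1 : #(Iic γ) ≤ #L := hL ▸ hK1 γ
    obtain ⟨f⟩ := (Cardinal.le_def _ _).1 h1
    have : Nonempty (Iic γ) := ⟨⟨γ, le_refl γ⟩⟩
    refine ⟨fun x => (Function.invFun f x : Iic γ), fun a ha => ⟨f ⟨a, ha⟩, ?_⟩⟩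
    simp [Function.leftInverse_invFun f.injective ⟨a, ha⟩]
  choose e he using he
  -- coding small relations
  set P : Set (Set (L × L)) := ⋃ p : ι × ι, 𝒫 (Lc p.1 ×ˢ Lc p.2) with hP
  have hPc : #P ≤ #R := by
    rw [hR, hP]
    refine (mk_iUnion_le _).trans ?_
    have h1 : #(ι × ι) ≤ lam := by
      simp only [mk_prod, lift_id]
      exact mul_le_of_le h0 hι hι
    refine mul_le_of_le h0 h1 (ciSup_le' fun p => ?_)
    rw [mk_powerset]
    refine (hlam.isStrongPrelimit ?_).le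
    rw [mk_setProd]
    exact mul_lt_of_lt h0 (hLc _) (hLc _)
  obtain ⟨code⟩ := (Cardinal.le_def _ _).1 hPc
  have hmem : ∀ (k n : ι) (β γ : K),
      {p : L × L | p ∈ Lc k ×ˢ Lc n ∧ d (e γ p.1) β = p.2} ∈ P := by
    intro k n β γ
    rw [hP]
    exact mem_iUnion.2 ⟨(k, n), fun p hp => hp.1⟩
  have hG : ∀ a : K, ∃ c ∈ C, a < c := by
    intro a
    obtain ⟨γ, hγ⟩ := hK2 {a} (by simpa using one_le_aleph0.trans h0)
    obtain ⟨c, hc, hle⟩ := hC.isCofinal γ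
    exact ⟨c, hc, (hγ a rfl).trans_le hle⟩
  choose G hGC hGlt using hG
  refine ⟨fun k n β γ => (code ⟨_, hmem k n β γ⟩ : K), G, ?_⟩
  intro N hne hNc hF hGN hcof
  obtain ⟨γ₀, hγ₀⟩ := hK2 N hNc
  have hub : (upperBounds N).Nonempty := ⟨γ₀, fun a ha => (hγ₀ a ha).le⟩
  set α := wellFounded_lt.min (upperBounds N) hub with hα
  have hαub : α ∈ upperBounds N := wellFounded_lt.min_mem _ hub
  have hlub : IsLUB N α := ⟨hαub, fun b hb => not_lt.1 (wellFounded_lt.not_lt_min _ hb)⟩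
  have hNlt : ∀ a ∈ N, a < α := fun a ha => (hGlt a).trans_le (hαub (hGN a ha))
  have habove : ∀ η < α, ∃ γ ∈ N, η < γ := fun η hη => (lt_isLUB_iff hlub).1 hη
  refine ⟨α, ?_, ?_, ?_⟩
  · refine hC.isLUB_mem (t := G '' N) ?_ (hne.image G) ⟨?_, ?_⟩
    · rintro _ ⟨a, -, rfl⟩; exact hGC a
    · rintro _ ⟨a, ha, rfl⟩; exact hαub (hGN a ha)
    · intro b hb
      exact hlub.2 fun a ha => (hGlt a).le.trans (hb ⟨a, ha, rfl⟩)
  · obtain ⟨S, hS, hSc⟩ := Order.exists_cof_eq (Iio α)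
    choose up hupN hup using habove
    rw [← hSc]
    refine lt_of_lt_of_le (hcof (range fun s : S => up s.1.1 s.1.2) ?_ ?_) mk_range_le
    · rintro _ ⟨s, rfl⟩; exact hupN _ _
    · intro a ha
      obtain ⟨s, hs, hle⟩ := hS ⟨a, hNlt a ha⟩
      exact ⟨_, ⟨⟨s, hs⟩, rfl⟩, le_trans hle (hup _ _).le⟩
  · intro hA
    obtain ⟨η, hη, B', hB'N, hB', hinj⟩ := hA N hNlt hlub
    obtain ⟨γ, hγN, hηγ⟩ := habove η hη
    obtain ⟨ξ, hξ⟩ := he γ hηγ.le
    obtain ⟨k, hk⟩ := hcov ξ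
    have hlt := hcof B' hB'N fun a ha => by
      obtain ⟨b, hb, hab⟩ := (lt_isLUB_iff hB').1 (hNlt a ha)
      exact ⟨b, hb, hab.le⟩
    choose n hn using hcov
    let g : B' → (N ∩ R : Set K) := fun β =>
      ⟨(code ⟨_, hmem k (n (d η β)) β γ⟩ : K),
        hF k (n (d η β)) β (hB'N β.2) γ hγN, (code _).2⟩
    have hg : Function.Injective g := by
      intro β β' hββ'
      have h1 : code ⟨_, hmem k (n (d η β)) β γ⟩ = code ⟨_, hmem k (n (d η β')) β' γ⟩ :=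
        Subtype.ext (congrArg (fun z : (N ∩ R : Set K) => (z : K)) hββ')
      have h2 := congrArg Subtype.val (code.injective h1)
      have h3 : (ξ, d η β) ∈ {p : L × L | p ∈ Lc k ×ˢ Lc (n (d η β)) ∧ d (e γ p.1) β = p.2} :=
        ⟨⟨hk, hn _⟩, by simp [hξ]⟩
      simp only at h2
      rw [h2] at h3
      have h4 : d η β' = d η β := by simpa [hξ] using h3.2
      exact Subtype.ext (hinj β.2 β'.2 h4.symm)
    exact absurd (mk_le_of_injective hg) (not_le.2 hlt)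

end Pool.Agent.P.MP_5f3b23_lc
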