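import Mathlib

namespace Pool.Agent.P.MP_5f3b23_lc

open Cardinal Set

universe u

/-- `κ` is supercompact: it is uncountable and for every set `X` of size at least `κ` there is a
`κ`-complete, fine, normal ultrafilter on `P_κ(X)`. -/
def IsSupercompact (κ : Cardinal.{u}) : Prop :=
  ℵ₀ < κ ∧ ∀ X : Type u, κ ≤ #X → ∃ U : Ultrafilter {x : Set X // #x < κ},
    (∀ S : Set (Set {x : Set X // #x < κ}), #S < κ → (∀ s ∈ S, s ∈ U) → ⋂₀ S ∈ U) ∧
    (∀ a : X, {x | a ∈ x.1} ∈ U) ∧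
    ∀ f : {x : Set X // #x < κ} → X, {x | f x ∈ x.1} ∈ U → ∃ a : X, {x | f x = a} ∈ U

/-- The set `A(d)`. -/
def injSet {K L : Type u} [LinearOrder K] (d : K → K → L) : Set K :=
  {α | ∀ B ⊆ Iio α, IsLUB B α → ∃ η < α, ∃ B' ⊆ B, IsLUB B' α ∧ InjOn (d η) B'}

end Pool.Agent.P.MP_5f3b23_lc
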