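import Pool.Agent.P.MP_5f3b23_lc.Core

namespace Pool.Agent.P.MP_5f3b23_lc

open Cardinal Set

universe u

section
variable {I X : Type u} (U : Ultrafilter I) (s : I → Set X)

theorem diag (hnorm : ∀ f : I → X, {x | f x ∈ s x} ∈ U → ∃ a : X, {x | f x = a} ∈ U)
    [Nonempty X] (P : X → I → Prop) (hP : ∀ a, {x | P a x} ∈ U) :
    {x | ∀ a ∈ s x, P a x} ∈ U := by
  classical
  by_contra h
  rw [← Ultrafilter.compl_mem_iff_notMem] at h
  have h1 : ∀ x, ∃ a : X, x ∈ {x | ∀ a ∈ s x, P a x}ᶜ → a ∈ s x ∧ ¬ P a x := by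
    intro x
    by_cases hx : x ∈ {x | ∀ a ∈ s x, P a x}ᶜ
    · have hx' := hx
      simp only [mem_compl_iff, mem_setOf_eq, not_forall] at hx'
      obtain ⟨a, ha, hna⟩ := hx'
      exact ⟨a, fun _ => ⟨ha, hna⟩⟩
    · exact ⟨Classical.arbitrary X, fun h => absurd h hx⟩
  choose f hf using h1
  obtain ⟨a, ha⟩ := hnorm f (Filter.mem_of_superset h fun x hx => (hf x hx).1)
  obtain ⟨x, hx1, hx2, hx3⟩ := Ultrafilter.nonempty_of_mem
    (Filter.inter_mem h (Filter.inter_mem ha (hP a)))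
  have := (hf x hx1).2
  rw [show f x = a from hx2] at this
  exact this hx3

end

/-- The local form: `λ` a strong limit singular cardinal with `cf λ < κ ≤ λ` and a normal fine
`κ`-complete ultrafilter on `P_κ(λ⁺)`. -/
theorem of_measure {κ lam : Cardinal.{u}} (hκ : ℵ₀ < κ) (hlam : lam.IsStrongLimit)
    (hcof : lam.ord.cof < κ) (hle : κ ≤ lam)
    (U : Ultrafilter {x : Set (Order.succ lam).ord.ToType // #x < κ})
    (hcomp : ∀ S : Set (Set {x : Set (Order.succ lam).ord.ToType // #x < κ}),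
      #S < κ → (∀ s ∈ S, s ∈ U) → ⋂₀ S ∈ U)
    (hfine : ∀ a, {x | a ∈ x.1} ∈ U)
    (hnorm : ∀ f : {x : Set (Order.succ lam).ord.ToType // #x < κ} → (Order.succ lam).ord.ToType,
      {x | f x ∈ x.1} ∈ U → ∃ a, {x | f x = a} ∈ U)
    (d : (Order.succ lam).ord.ToType → (Order.succ lam).ord.ToType → lam.ord.ToType) :
    IsStationary ({α | lam.ord.cof < Order.cof (Iio α)} \ injSet d) := by
  classical
  have h0 : ℵ₀ ≤ lam := hlam.aleph0_le
  intro C hC
  obtain ⟨S, hS, hSc⟩ := Order.exists_cof_eq lam.ord.ToType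
  rw [Ordinal.cof_toType] at hSc
  have hK : #(Order.succ lam).ord.ToType = Order.succ lam := Cardinal.mk_ord_toType _
  obtain ⟨R, hR⟩ : ∃ R : Set (Order.succ lam).ord.ToType, #R = lam :=
    le_mk_iff_exists_set.1 (by rw [hK]; exact Order.le_succ lam)
  obtain ⟨F, G, H⟩ := core hlam (ι := S) (mk_Iic_le h0) (fun _ => bounded_of_le h0)
    (Cardinal.mk_ord_toType lam) (fun i => Iic i.1) (fun i => mk_Iic_lt h0 hlam.isSuccLimit _)
    (fun x => by obtain ⟨y, hy, hxy⟩ := hS x; exact ⟨⟨y, hy⟩, hxy⟩)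
    (hSc ▸ hcof.le.trans hle) R hR d C hC
  have hiInter : ∀ {J : Type u} (t : J → Set {x : Set (Order.succ lam).ord.ToType // #x < κ}),
      #J < κ → (∀ j, t j ∈ U) → {x | ∀ j, x ∈ t j} ∈ U := by
    intro J t hJ ht
    have := hcomp (range t) (mk_range_le.trans_lt hJ) (by rintro _ ⟨j, rfl⟩; exact ht j)
    simpa [sInter_range, iInter_setOf, setOf_forall] using this
  have hRne : R.Nonempty := by
    rw [← Set.nonempty_coe_sort, ← mk_ne_zero_iff, hR]
    exact (aleph0_pos.trans_le h0).ne'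
  obtain ⟨r₀, hr₀⟩ := hRne
  have : Nonempty (Order.succ lam).ord.ToType := ⟨r₀⟩
  have hdiag := fun P hP => diag U (fun x => x.1) hnorm P hP
  have hSκ : #S < κ := hSc ▸ hcof
  have A1 : {x | ∀ p : S × S, x ∈ {x : {x : Set (Order.succ lam).ord.ToType // #x < κ} |
      ∀ a ∈ x.1, ∀ b ∈ x.1, F p.1 p.2 a b ∈ x.1}} ∈ U := by
    refine hiInter _ ?_ fun p => ?_
    · simp only [mk_prod, lift_id]
      exact mul_lt_of_lt hκ.le hSκ hSκ
    · exact hdiag (fun a x => ∀ b ∈ x.1, F p.1 p.2 a b ∈ x.1) fun a =>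
        hdiag (fun b x => F p.1 p.2 a b ∈ x.1) fun b => hfine _
  have A2 : {x : {x : Set (Order.succ lam).ord.ToType // #x < κ} | ∀ a ∈ x.1, G a ∈ x.1} ∈ U :=
    hdiag (fun a x => G a ∈ x.1) fun a => hfine _
  obtain ⟨j⟩ : Nonempty (S ↪ R) := (Cardinal.le_def _ _).1 (by rw [hR]; exact hSκ.le.trans hle)
  have A3 : {x | ∀ i : S, x ∈ {x : {x : Set (Order.succ lam).ord.ToType // #x < κ} |
      (j i).1 ∈ x.1}} ∈ U := hiInter _ hSκ fun i => hfine _
  have A4 : {x : {x : Set (Order.succ lam).ord.ToType // #x < κ} |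
      ∀ B ⊆ x.1, (∀ a ∈ x.1, ∃ b ∈ B, a ≤ b) → #(x.1 ∩ R : Set _) < #B} ∈ U := by
    by_contra h
    rw [← Ultrafilter.compl_mem_iff_notMem] at h
    have h1 : ∀ x : {x : Set (Order.succ lam).ord.ToType // #x < κ},
        ∃ g : (Order.succ lam).ord.ToType → (Order.succ lam).ord.ToType,
          (∀ a ∈ x.1, g a ∈ x.1) ∧ (x ∈ {x : {x : Set (Order.succ lam).ord.ToType // #x < κ} |
            ∀ B ⊆ x.1, (∀ a ∈ x.1, ∃ b ∈ B, a ≤ b) → #(x.1 ∩ R : Set _) < #B}ᶜ →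
            ∀ c ∈ x.1, ∃ a ∈ x.1 ∩ R, c ≤ g a) := by
      intro x
      by_cases hx : x ∈ {x : {x : Set (Order.succ lam).ord.ToType // #x < κ} |
            ∀ B ⊆ x.1, (∀ a ∈ x.1, ∃ b ∈ B, a ≤ b) → #(x.1 ∩ R : Set _) < #B}ᶜ
      · have hx' := hx
        simp only [mem_compl_iff, mem_setOf_eq, not_forall, not_lt] at hx'
        obtain ⟨B, hBx, hB, hBc⟩ := hx'
        obtain ⟨i⟩ := (Cardinal.le_def _ _).1 hBc
        refine ⟨fun a => if h : ∃ b : B, (i b).1 = a then h.choose.1 else a, ?_, ?_⟩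
        · intro a ha
          by_cases h : ∃ b : B, (i b).1 = a
          · simp only [h, dif_pos]; exact hBx h.choose.2
          · simp only [h, dif_neg, not_false_eq_true]; exact ha
        · intro _ c hc
          obtain ⟨b, hb, hcb⟩ := hB c hc
          refine ⟨(i ⟨b, hb⟩).1, (i ⟨b, hb⟩).2, ?_⟩
          have h : ∃ b' : B, (i b').1 = (i ⟨b, hb⟩).1 := ⟨_, rfl⟩
          simp only [h, dif_pos]
          have := i.injective (Subtype.ext h.choose_spec)
          rw [this]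
          exact hcb
      · exact ⟨id, fun a ha => ha, fun h => absurd h hx⟩
    choose g hg1 hg2 using h1
    have h2 : ∀ a, ∃ b, {x | g x a = b} ∈ U := fun a =>
      hnorm (fun x => g x a) (Filter.mem_of_superset (hfine a) fun x hx => hg1 x a hx)
    choose g' hg' using h2
    have h3 := hdiag (fun a x => g x a = g' a) hg'
    obtain ⟨γ, hγ⟩ := bounded_of_le h0 (s := g' '' R) (mk_image_le.trans hR.le)
    obtain ⟨x, hx1, hx2, hx3⟩ := Ultrafilter.nonempty_of_mem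
      (Filter.inter_mem h (Filter.inter_mem h3 (hfine γ)))
    obtain ⟨a, ha, hγa⟩ := hg2 x hx1 γ hx3
    rw [hx2 a ha.1] at hγa
    exact absurd (hγ _ ⟨a, ha.2, rfl⟩) (not_lt.2 hγa)
  obtain ⟨x, hx1, hx2, hx3, hx4, hx5⟩ := Ultrafilter.nonempty_of_mem
    (Filter.inter_mem A1 (Filter.inter_mem A2 (Filter.inter_mem A3 (Filter.inter_mem A4
      (hfine r₀)))))
  obtain ⟨α, hαC, hα1, hα2⟩ := H x.1 ⟨r₀, hx5⟩ (x.2.le.trans hle)
    (fun k n => hx1 (k, n)) hx2 hx4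
  refine ⟨α, ⟨?_, hα2⟩, hαC⟩
  refine lt_of_le_of_lt ?_ hα1
  rw [← hSc]
  exact mk_le_of_injective (f := fun i : S => (⟨(j i).1, hx3 i, (j i).2⟩ : (x.1 ∩ R : Set _)))
    fun a b hab => j.injective (Subtype.ext (congrArg (fun z : (x.1 ∩ R : Set _) => z.1) hab))

theorem exists_strongLimit (κ : Cardinal.{u}) :
    ∃ lam : Cardinal.{u}, lam.IsStrongLimit ∧ lam.ord.cof = ℵ₀ ∧ κ ≤ lam := by
  refine ⟨ℶ_ (κ.ord + Ordinal.omega0), ?_, ?_, ?_⟩
  · exact isStrongLimit_beth.2 (Ordinal.isSuccLimit_add _ Ordinal.isSuccLimit_omega0).isSuccPrelimit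
  · have h := Ordinal.cof_map_of_isNormal (f := Cardinal.ord ∘ beth)
      (isNormal_ord.comp isNormal_beth) (Ordinal.isSuccLimit_add κ.ord Ordinal.isSuccLimit_omega0)
    rw [Ordinal.cof_add _ Ordinal.omega0_ne_zero, Ordinal.cof_omega0] at h
    exact h
  · exact (le_beth_ord κ).trans (beth_mono le_self_add)

theorem main (κ : Cardinal.{u}) (hκ : IsSupercompact κ) :
    ∃ lam : Cardinal.{u}, lam.IsSingular ∧
      ∀ d : (Order.succ lam).ord.ToType → (Order.succ lam).ord.ToType → lam.ord.ToType,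
        IsStationary ({α | Order.cof (Iio α) ≠ lam.ord.cof} \ injSet d) := by
  obtain ⟨lam, h1, h2, h3⟩ := exists_strongLimit κ
  refine ⟨lam, ⟨h1.aleph0_le, ?_⟩, fun d => ?_⟩
  · rw [h2]; exact (hκ.1.trans_le h3).ne
  · obtain ⟨U, hU1, hU2, hU3⟩ := hκ.2 (Order.succ lam).ord.ToType
      (by rw [Cardinal.mk_ord_toType]; exact h3.trans (Order.le_succ _))
    refine (of_measure hκ.1 h1 (h2 ▸ hκ.1) h3 U hU1 hU2 hU3 d).mono ?_
    rintro α ⟨ha, hb⟩
    exact ⟨ne_of_gt ha, hb⟩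

end Pool.Agent.P.MP_5f3b23_lc
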