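import Pool.Agent.P.MP_5f3b23_lc.RowSep

/-! The combinatorial core for `θ` rows, and the cover of the rows by few good pieces. -/

namespace Pool.Agent.P.MP_5f3b23_lc

open Cardinal Set

universe u

theorem rows_le {K : Type u} [LinearOrder K] [WellFoundedLT K] (θ : Cardinal.{u}) :
    #{η : K | #(Iio η) < θ} ≤ θ := by
  have h : ∀ η : {η : K | #(Iio η) < θ}, Ordinal.typein (α := K) (· < ·) η.1 <
      Ordinal.type (α := θ.ord.ToType) (· < ·) := fun η => by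
    rw [Ordinal.type_toType, lt_ord, Ordinal.card_typein]
    exact η.2
  refine (mk_le_of_injective (f := fun η : {η : K | #(Iio η) < θ} =>
    Ordinal.enum (α := θ.ord.ToType) (· < ·)
      ⟨Ordinal.typein (α := K) (· < ·) η.1, mem_Iio.2 (h η)⟩) fun a b e => ?_).trans
    (Cardinal.mk_ord_toType θ).le
  exact Subtype.ext (Ordinal.typein_injective _ (congrArg Subtype.val (Ordinal.enum_inj.1 e)))

theorem mk_Iic_lt' {c : Cardinal.{u}} (hc : ℵ₀ ≤ c) (i : c.ord.ToType) : #(Iic i) < c := by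
  have h1 : #(Iio i) < c := Cardinal.mk_Iio_toType_ord_lt i
  rw [← Iio_insert]
  exact lt_of_le_of_lt mk_insert_le (add_lt_of_lt hc h1 (one_lt_aleph0.trans_le hc))

theorem bounded_of_lt_cof {c : Cardinal.{u}} {s : Set c.ord.ToType} (hs : #s < c.ord.cof) :
    ∃ γ, ∀ a ∈ s, a < γ := by
  by_contra h
  push Not at h
  have hcof : IsCofinal s := fun γ => by
    obtain ⟨a, ha, hle⟩ := h γ
    exact ⟨a, ha, hle⟩
  have h1 := Order.cof_le hcof
  rw [Ordinal.cof_toType] at h1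
  exact absurd hs (not_lt.2 h1)

theorem core3 {lam θ : Cardinal.{u}} (h0 : ℵ₀ ≤ lam) {ι ι' J K L : Type u}
    [LinearOrder K] [WellFoundedLT K] (hK2 : ∀ s : Set K, #s ≤ lam → ∃ γ, ∀ a ∈ s, a < γ)
    (Lc : ι → Set L) (hcov : ∀ x, ∃ i, x ∈ Lc i) (Jc : ι' → Set J) (hcovJ : ∀ x, ∃ i, x ∈ Jc i)
    (hι : #(ι' × ι) ≤ lam) (hpow : ∀ k n, (#(Lc n) + 1) ^ #(Jc k) ≤ lam)
    (e : K → J → K) (he : ∀ γ η, η ≤ γ → #(Iio η) < θ → η ∈ range (e γ))
    (R : Set K) (hR : #R = lam) (d : K → K → L) (C : Set K) (hC : IsClub C) :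
    ∃ (F : ι' × ι → K → K → K) (G : K → K),
      ∀ N : Set K, N.Nonempty → #N ≤ lam →
        (∀ p, ∀ a ∈ N, ∀ b ∈ N, F p a b ∈ N) → (∀ a ∈ N, G a ∈ N) →
        (∀ B ⊆ N, (∀ a ∈ N, ∃ b ∈ B, a ≤ b) → #(N ∩ R : Set K) < #B) →
        ∃ α ∈ C, #(N ∩ R : Set K) < Order.cof (Iio α) ∧ α ∉ injSetRows θ d ∧
          Order.cof (Iio α) ≤ #N := by
  classical
  set P : Set (J → Option L) := ⋃ p : ι' × ι, range fun (f : Jc p.1 → Option (Lc p.2)) (ξ : J) =>
    if h : ξ ∈ Jc p.1 then (f ⟨ξ, h⟩).map Subtype.val else none with hP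
  have hPc : #P ≤ #R := by
    rw [hR, hP]
    refine (mk_iUnion_le _).trans (mul_le_of_le h0 hι (ciSup_le' fun p => mk_range_le.trans ?_))
    rw [← power_def, mk_option]
    exact hpow _ _
  obtain ⟨code⟩ := (Cardinal.le_def _ _).1 hPc
  have hmem : ∀ (p : ι' × ι) (β γ : K), (fun ξ : J => if ξ ∈ Jc p.1 ∧ d (e γ ξ) β ∈ Lc p.2
      then some (d (e γ ξ) β) else none) ∈ P := by
    intro p β γ
    rw [hP]
    refine mem_iUnion.2 ⟨p, fun ξ => if h : d (e γ ξ.1) β ∈ Lc p.2 then some ⟨_, h⟩ else none, ?_⟩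
    funext ξ
    by_cases h1 : ξ ∈ Jc p.1 <;> by_cases h2 : d (e γ ξ) β ∈ Lc p.2 <;> simp [h1, h2]
  have hG : ∀ a : K, ∃ c ∈ C, a < c := by
    intro a
    obtain ⟨γ, hγ⟩ := hK2 {a} (by simpa using one_le_aleph0.trans h0)
    obtain ⟨c, hc, hle⟩ := hC.isCofinal γ
    exact ⟨c, hc, (hγ a rfl).trans_le hle⟩
  choose G hGC hGlt using hG
  refine ⟨fun p β γ => (code ⟨_, hmem p β γ⟩ : K), G, ?_⟩
  intro N hne hNc hF hGN hcof
  obtain ⟨γ₀, hγ₀⟩ := hK2 N hNc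
  have hub : (upperBounds N).Nonempty := ⟨γ₀, fun a ha => (hγ₀ a ha).le⟩
  set α := wellFounded_lt.min (upperBounds N) hub with hα
  have hαub : α ∈ upperBounds N := wellFounded_lt.min_mem _ hub
  have hlub : IsLUB N α := ⟨hαub, fun b hb => not_lt.1 (wellFounded_lt.not_lt_min _ hb)⟩
  have hNlt : ∀ a ∈ N, a < α := fun a ha => (hGlt a).trans_le (hαub (hGN a ha))
  have habove : ∀ η < α, ∃ γ ∈ N, η < γ := fun η hη => (lt_isLUB_iff hlub).1 hη
  have hcofB : ∀ B' ⊆ N, IsLUB B' α → #(N ∩ R : Set K) < #B' := fun B' hB'N hB' =>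
    hcof B' hB'N fun a ha => by
      obtain ⟨b, hb, hab⟩ := (lt_isLUB_iff hB').1 (hNlt a ha)
      exact ⟨b, hb, hab.le⟩
  refine ⟨α, ?_, ?_, ?_, ?_⟩
  · refine hC.isLUB_mem (t := G '' N) ?_ (hne.image G) ⟨?_, ?_⟩
    · rintro _ ⟨a, -, rfl⟩; exact hGC a
    · rintro _ ⟨a, ha, rfl⟩; exact hαub (hGN a ha)
    · intro b hb
      exact hlub.2 fun a ha => (hGlt a).le.trans (hb ⟨a, ha, rfl⟩)
  · obtain ⟨B', h1, h2, h3⟩ := exists_small_cofinal (B := N) hNlt hlub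
    exact (hcofB B' h1 h2).trans_le h3
  · intro hA
    obtain ⟨η, hη, hηθ, B', hB'N, hB', hinj⟩ := hA N hNlt hlub
    obtain ⟨γ, hγN, hηγ⟩ := habove η hη
    obtain ⟨ξ, hξ⟩ := he γ η hηγ.le hηθ
    obtain ⟨k, hk⟩ := hcovJ ξ
    choose n hn using hcov
    let g : B' → (N ∩ R : Set K) := fun β =>
      ⟨(code ⟨_, hmem (k, n (d η β)) β γ⟩ : K),
        hF (k, n (d η β)) β (hB'N β.2) γ hγN, (code _).2⟩
    have hg : Function.Injective g := by
      intro β β' hββ'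
      have h1 : code ⟨_, hmem (k, n (d η β)) β γ⟩ = code ⟨_, hmem (k, n (d η β')) β' γ⟩ :=
        Subtype.ext (congrArg (fun z : (N ∩ R : Set K) => (z : K)) hββ')
      have h2 := congrFun (congrArg Subtype.val (code.injective h1)) ξ
      simp only [hξ, hk, hn, and_self, if_true, Option.some.injEq] at h2
      exact Subtype.ext (hinj β.2 β'.2 h2)
    exact absurd (mk_le_of_injective hg) (not_le.2 (hcofB B' hB'N hB'))
  · have hc : IsCofinal {x : Iio α | x.1 ∈ N} := fun x => by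
      obtain ⟨γ, hγN, hγ⟩ := habove x.1 x.2
      exact ⟨⟨γ, hNlt γ hγN⟩, hγN, hγ.le⟩
    refine (Order.cof_le hc).trans ?_
    exact mk_le_of_injective (f := fun x : {x : Iio α | x.1 ∈ N} => (⟨x.1.1, x.2⟩ : N))
      fun a b hab => Subtype.ext (Subtype.ext (congrArg (fun z : N => z.1) hab))

/-- The rows are covered by fewer than `κ` pieces whose powers stay below `λ`. -/
theorem good_cover {κ lam t : Cardinal.{u}} (hκ : ℵ₀ < κ) (hle : κ ≤ lam)
    (hcof : lam.ord.cof < κ) (ht0 : ℵ₀ ≤ t) (htl : t ≤ lam)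
    (hR : ∀ σ : Cardinal.{u}, σ.IsRegular → σ ≤ t → σ < lam → ∀ ν < lam, ν ^ σ < lam) :
    ∃ (ι' : Type u) (Jc : ι' → Set t.ord.ToType), #ι' < κ ∧ (∀ x, ∃ i, x ∈ Jc i) ∧
      ∀ k, ∀ ν < lam, ν ^ #(Jc k) < lam := by
  have h0 : ℵ₀ < lam := hκ.trans_le hle
  have hgood : ∀ σ < t, ∀ ν < lam, ν ^ σ < lam := by
    intro σ hσ ν hν
    have hν1 : ν + 1 < lam := add_lt_of_lt h0.le hν (one_lt_aleph0.trans h0)
    have key : ∀ σ' : Cardinal.{u}, σ'.IsRegular → σ ≤ σ' → σ' ≤ t → ν ^ σ < lam := by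
      intro σ' h1 h2 h3
      have h4 : σ' < lam := lt_of_le_of_ne (h3.trans htl) fun e => by
        rw [← e, h1.cof_ord] at hcof
        exact absurd (e ▸ hle : κ ≤ σ') (not_le.2 hcof)
      exact ((power_le_power_right le_self_add).trans
        (power_le_power_left (by simp) h2)).trans_lt (hR σ' h1 h3 h4 _ hν1)
    rcases lt_or_ge σ ℵ₀ with h | h
    · exact key ℵ₀ isRegular_aleph0 h.le ht0
    · exact key _ (isRegular_succ h) (Order.le_succ σ) (Order.succ_le_of_lt hσ)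
  obtain ⟨S', hS', hS'c⟩ := Order.exists_cof_eq t.ord.ToType
  rw [Ordinal.cof_toType] at hS'c
  rcases lt_or_ge t.ord.cof κ with h | h
  · refine ⟨S', fun i => Iic i.1, hS'c ▸ h, fun x => ?_, fun k => hgood _ (mk_Iic_lt' ht0 _)⟩
    obtain ⟨y, hy, hxy⟩ := hS' x
    exact ⟨⟨y, hy⟩, hxy⟩
  refine ⟨PUnit, fun _ => Set.univ, by simpa using one_lt_aleph0.trans hκ,
    fun x => ⟨PUnit.unit, mem_univ x⟩, fun _ ν hν => ?_⟩
  rw [mk_univ, Cardinal.mk_ord_toType]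
  have htlt : t < lam := lt_of_le_of_ne htl fun e => absurd (e ▸ h) (not_le.2 hcof)
  rcases (Ordinal.cof_ord_le t).eq_or_lt with hreg | hsing
  · exact hR t ⟨ht0, hreg.ge⟩ le_rfl htlt ν hν
  have hν1 : ν + 1 < lam := add_lt_of_lt h0.le hν (one_lt_aleph0.trans h0)
  obtain ⟨S, hS, hSc⟩ := Order.exists_cof_eq lam.ord.ToType
  rw [Ordinal.cof_toType] at hSc
  obtain ⟨n, hn⟩ : ∃ n : S, ∀ i : t.ord.ToType, (ν + 1) ^ #(Iic i) ≤ #(Iic n.1) := by
    by_contra hno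
    push Not at hno
    choose i hi using hno
    obtain ⟨j, hj⟩ := bounded_of_lt_cof (s := range i)
      (mk_range_le.trans_lt (hSc ▸ hcof.trans_le h))
    have hc := hgood _ (mk_Iic_lt' ht0 j) _ hν1
    have h1 := rows_le (K := lam.ord.ToType) ((ν + 1) ^ #(Iic j))
    have h2 : {η : lam.ord.ToType | #(Iio η) < (ν + 1) ^ #(Iic j)} = Set.univ := by
      refine eq_univ_of_forall fun η => ?_
      obtain ⟨y, hy, hηy⟩ := hS η
      refine lt_of_le_of_lt (mk_le_mk_of_subset fun z hz => (le_of_lt hz).trans hηy)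
        ((hi ⟨y, hy⟩).trans_le (power_le_power_left (by simp) ?_))
      exact mk_le_mk_of_subset (Iic_subset_Iic.2 (hj _ ⟨_, rfl⟩).le)
    rw [h2, mk_univ, Cardinal.mk_ord_toType] at h1
    exact absurd h1 (not_le.2 hc)
  refine lt_of_le_of_lt ?_ (hgood _ hsing _ (mk_Iic_lt' h0.le n.1))
  have h3 : #(t.ord.ToType → ν.out) ≤ #(∀ s : S', Iic s.1 → ν.out) :=
    mk_le_of_injective (f := fun f s x => f x.1) fun f g e => funext fun x => by
      obtain ⟨y, hy, hxy⟩ := hS' x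
      exact congrFun (congrFun e ⟨y, hy⟩) ⟨x, hxy⟩
  rw [← power_def, mk_out, Cardinal.mk_ord_toType, mk_pi] at h3
  refine h3.trans ((prod_le_prod _ (fun _ => #(Iic n.1)) fun s => ?_).trans ?_)
  · rw [← power_def, mk_out]
    exact (power_le_power_right le_self_add).trans (hn _)
  · rw [prod_const', hS'c]

end Pool.Agent.P.MP_5f3b23_lc
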