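import Pool.Agent.P.MP_5f3b23_lc.Defs

namespace Pool.Agent.P.MP_5f3b23_lc

open Cardinal Set

universe u

/-- The set `A(d)` for `d : θ × K → L`; only the rows `η < θ` of `d` are used
(`η < θ` holds exactly if `η` has fewer than `θ` predecessors). -/
def injSetRows {K L : Type u} [LinearOrder K] (θ : Cardinal.{u}) (d : K → K → L) : Set K :=
  {α | ∀ B ⊆ Iio α, IsLUB B α →
    ∃ η < α, #(Iio η) < θ ∧ ∃ B' ⊆ B, IsLUB B' α ∧ InjOn (d η) B'}

end Pool.Agent.P.MP_5f3b23_lc
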