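import Pool.Agent.P.MP_5f3b23_lc.RowCore

/-! The exact threshold for the number of rows above a supercompact cardinal. -/

namespace Pool.Agent.P.MP_5f3b23_lc

open Cardinal Set

universe u

theorem rows_suff {κ lam θ : Cardinal.{u}} (hκ : IsSupercompact κ) (hle : κ ≤ lam)
    (hθ : lam.ord.cof ≤ θ) (hcof : lam.ord.cof < κ)
    (hRg : ∀ σ : Cardinal.{u}, σ.IsRegular → σ ≤ θ → σ < lam → ∀ ν < lam, ν ^ σ < lam)
    (d : (Order.succ lam).ord.ToType → (Order.succ lam).ord.ToType → lam.ord.ToType) :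
    IsStationary ({α | Order.cof (Iio α) < κ ∧ Order.cof (Iio α) ≠ lam.ord.cof} \
      injSetRows θ d) := by
  classical
  have h0 : ℵ₀ ≤ lam := hκ.1.le.trans hle
  have hc0 : ℵ₀ ≤ lam.ord.cof := (isRegular_cof (isSuccLimit_ord h0)).aleph0_le
  intro C hC
  obtain ⟨S, hS, hSc⟩ := Order.exists_cof_eq lam.ord.ToType
  rw [Ordinal.cof_toType] at hSc
  have hSκ : #S < κ := hSc ▸ hcof
  have hK : #(Order.succ lam).ord.ToType = Order.succ lam := Cardinal.mk_ord_toType _
  obtain ⟨U, hcomp, hfine, hnorm⟩ := hκ.2 (Order.succ lam).ord.ToType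
    (by rw [hK]; exact hle.trans (Order.le_succ _))
  obtain ⟨R, hR⟩ : ∃ R : Set (Order.succ lam).ord.ToType, #R = lam :=
    le_mk_iff_exists_set.1 (by rw [hK]; exact Order.le_succ lam)
  obtain ⟨ι', Jc, hι', hJ, hJg⟩ := good_cover (t := min θ lam) hκ.1 hle hcof
    (le_min (hc0.trans hθ) h0) (min_le_right _ _)
    (fun σ h1 h2 => hRg σ h1 (h2.trans (min_le_left _ _)))
  have hιι : #(ι' × S) < κ := by
    simp only [mk_prod, lift_id]
    exact mul_lt_of_lt hκ.1.le hι' hSκ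
  have he : ∀ γ : (Order.succ lam).ord.ToType, ∃ e : (min θ lam).ord.ToType →
      (Order.succ lam).ord.ToType, ∀ η, η ≤ γ → #(Iio η) < θ → η ∈ range e := by
    intro γ
    have h1 : #{η : (Order.succ lam).ord.ToType | η ≤ γ ∧ #(Iio η) < θ} ≤
        #(min θ lam).ord.ToType := by
      rw [Cardinal.mk_ord_toType]
      exact le_min ((mk_le_mk_of_subset fun η hη => hη.2).trans (rows_le θ))
        ((mk_le_mk_of_subset fun η hη => hη.1).trans (mk_Iic_le h0 γ))
    obtain ⟨f⟩ := (Cardinal.le_def _ _).1 h1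
    refine ⟨fun ξ => if h : ∃ a, f a = ξ then h.choose.1 else γ, fun η k1 k2 =>
      ⟨f ⟨η, k1, k2⟩, ?_⟩⟩
    have h : ∃ a, f a = f ⟨η, k1, k2⟩ := ⟨_, rfl⟩
    simp only [h, dif_pos]
    exact congrArg Subtype.val (f.injective h.choose_spec)
  choose e he using he
  obtain ⟨F, G, H⟩ := core3 (θ := θ) h0 (ι := S) (fun _ => bounded_of_le h0)
    (fun i => Iic i.1) (fun x => by obtain ⟨y, hy, hxy⟩ := hS x; exact ⟨⟨y, hy⟩, hxy⟩) Jc hJ
    (hιι.le.trans hle) (fun k n => (hJg k _ (add_lt_of_lt h0 (mk_Iic_lt' h0 _)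
      (one_lt_aleph0.trans_le h0))).le) e he R hR d C hC
  have hiInter := fun {J : Type u} t hJ ht => sc_iInter U hcomp (J := J) t hJ ht
  have hRne : R.Nonempty := by
    rw [← Set.nonempty_coe_sort, ← mk_ne_zero_iff, hR]
    exact (aleph0_pos.trans_le h0).ne'
  obtain ⟨r₀, hr₀⟩ := hRne
  have : Nonempty (Order.succ lam).ord.ToType := ⟨r₀⟩
  have hdiag := fun P hP => diag U (fun x => x.1) hnorm P hP
  have A1 : {x | ∀ p : ι' × S, x ∈ {x : {x : Set (Order.succ lam).ord.ToType // #x < κ} |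
      ∀ a ∈ x.1, ∀ b ∈ x.1, F p a b ∈ x.1}} ∈ U :=
    hiInter _ hιι fun p => hdiag (fun a x => ∀ b ∈ x.1, F p a b ∈ x.1) fun a =>
      hdiag (fun b x => F p a b ∈ x.1) fun b => hfine _
  have A2 : {x : {x : Set (Order.succ lam).ord.ToType // #x < κ} | ∀ a ∈ x.1, G a ∈ x.1} ∈ U :=
    hdiag (fun a x => G a ∈ x.1) fun a => hfine _
  obtain ⟨j⟩ : Nonempty (S ↪ R) := (Cardinal.le_def _ _).1 (by rw [hR]; exact hSκ.le.trans hle)
  have A3 : {x | ∀ i : S, x ∈ {x : {x : Set (Order.succ lam).ord.ToType // #x < κ} |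
      (j i).1 ∈ x.1}} ∈ U := hiInter _ hSκ fun i => hfine _
  have A4 : {x : {x : Set (Order.succ lam).ord.ToType // #x < κ} |
      ∀ B ⊆ x.1, (∀ a ∈ x.1, ∃ b ∈ B, a ≤ b) → #(x.1 ∩ R : Set _) < #B} ∈ U := by
    by_contra h
    rw [← Ultrafilter.compl_mem_iff_notMem] at h
    have h1 : ∀ x : {x : Set (Order.succ lam).ord.ToType // #x < κ},
        ∃ g : (Order.succ lam).ord.ToType → (Order.succ lam).ord.ToType,
          (∀ a ∈ x.1, g a ∈ x.1) ∧ (x ∈ {x : {x : Set (Order.succ lam).ord.ToType // #x < κ} |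
            ∀ B ⊆ x.1, (∀ a ∈ x.1, ∃ b ∈ B, a ≤ b) → #(x.1 ∩ R : Set _) < #B}ᶜ →
            ∀ c ∈ x.1, ∃ a ∈ x.1 ∩ R, c ≤ g a) := by
      intro x
      by_cases hx : x ∈ {x : {x : Set (Order.succ lam).ord.ToType // #x < κ} |
            ∀ B ⊆ x.1, (∀ a ∈ x.1, ∃ b ∈ B, a ≤ b) → #(x.1 ∩ R : Set _) < #B}ᶜ
      · have hx' := hx
        simp only [mem_compl_iff, mem_ofPred_eq, not_forall, not_lt] at hx'
        obtain ⟨B, hBx, hB, hBc⟩ := hx'
        obtain ⟨i⟩ := (Cardinal.le_def _ _).1 hBc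
        refine ⟨fun a => if h : ∃ b : B, (i b).1 = a then h.choose.1 else a, ?_, ?_⟩
        · intro a ha
          by_cases h : ∃ b : B, (i b).1 = a
          · simp only [h, dif_pos]; exact hBx h.choose.2
          · simp only [h, dif_neg, not_false_eq_true]; exact ha
        · intro _ c hc
          obtain ⟨b, hb, hcb⟩ := hB c hc
          refine ⟨(i ⟨b, hb⟩).1, (i ⟨b, hb⟩).2, ?_⟩
          have h : ∃ b' : B, (i b').1 = (i ⟨b, hb⟩).1 := ⟨_, rfl⟩
          simp only [h, dif_pos]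
          have := i.injective (Subtype.ext h.choose_spec)
          rw [this]
          exact hcb
      · exact ⟨id, fun a ha => ha, fun h => absurd h hx⟩
    choose g hg1 hg2 using h1
    have h2 : ∀ a, ∃ b, {x | g x a = b} ∈ U := fun a =>
      hnorm (fun x => g x a) (Filter.mem_of_superset (hfine a) fun x hx => hg1 x a hx)
    choose g' hg' using h2
    have h3 := hdiag (fun a x => g x a = g' a) hg'
    obtain ⟨γ, hγ⟩ := bounded_of_le h0 (s := g' '' R) (mk_image_le.trans hR.le)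
    obtain ⟨x, hx1, hx2, hx3⟩ := Ultrafilter.nonempty_of_mem
      (Filter.inter_mem h (Filter.inter_mem h3 (hfine γ)))
    obtain ⟨a, ha, hγa⟩ := hg2 x hx1 γ hx3
    rw [hx2 a ha.1] at hγa
    exact absurd (hγ _ ⟨a, ha.2, rfl⟩) (not_lt.2 hγa)
  obtain ⟨x, hx1, hx2, hx3, hx4, hx5⟩ := Ultrafilter.nonempty_of_mem
    (Filter.inter_mem A1 (Filter.inter_mem A2 (Filter.inter_mem A3 (Filter.inter_mem A4
      (hfine r₀)))))
  obtain ⟨α, hαC, hα1, hα2, hα3⟩ := H x.1 ⟨r₀, hx5⟩ (x.2.le.trans hle) hx1 hx2 hx4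
  refine ⟨α, ⟨⟨hα3.trans_lt x.2, ne_of_gt (lt_of_le_of_lt ?_ hα1)⟩, hα2⟩, hαC⟩
  rw [← hSc]
  exact mk_le_of_injective (f := fun i : S => (⟨(j i).1, hx3 i, (j i).2⟩ : (x.1 ∩ R : Set _)))
    fun a b hab => j.injective (Subtype.ext (congrArg (fun z : (x.1 ∩ R : Set _) => z.1) hab))

theorem rows_main {κ lam θ : Cardinal.{u}} (hκ : IsSupercompact κ) (hle : κ ≤ lam)
    (hθ : lam.ord.cof ≤ θ) :
    (∀ d : (Order.succ lam).ord.ToType → (Order.succ lam).ord.ToType → lam.ord.ToType,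
      IsStationary ({α | Order.cof (Iio α) < κ ∧ Order.cof (Iio α) ≠ lam.ord.cof} \
        injSetRows θ d)) ↔
    lam.ord.cof < κ ∧
      ∀ σ : Cardinal.{u}, σ.IsRegular → σ ≤ θ → σ < lam → ∀ ν < lam, ν ^ σ < lam := by
  refine ⟨fun H => ?_, fun h d => rows_suff hκ hle hθ h.1 h.2 d⟩
  have h0 : ℵ₀ ≤ lam := hκ.1.le.trans hle
  have hreg : lam.ord.cof.IsRegular := isRegular_cof (isSuccLimit_ord h0)
  have key : ∀ σ ν : Cardinal.{u}, σ.IsRegular → κ ≤ σ → σ ≤ lam → σ ≤ θ → lam < ν ^ σ →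
      (∀ τ < κ, ν ^ τ ≤ lam) → False := by
    intro σ ν h1 h2 h3 h4 h5 h6
    obtain ⟨d, hd⟩ := hκ.not_stat h0 h1 h2 h3 h4 h5 h6
    exact hd ((H d).mono fun α hα => ⟨hα.1.1, hα.2⟩)
  have hcof : lam.ord.cof < κ := by
    by_contra h
    rw [not_lt] at h
    refine key _ lam hreg h (Ordinal.cof_ord_le lam) hθ (lt_power_cof_ord h0) fun τ hτ => ?_
    have := pow_le_of_cover (T := τ.out) h0 (Cardinal.mk_ord_toType lam).le
      (fun i : lam.ord.ToType => Iic i)
      (fun i => by rw [mk_out]; exact hκ.pow_le hle (mk_Iic_lt' h0 i) hτ)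
      (fun f => by
        obtain ⟨γ, hγ⟩ := bounded_of_lt_cof (s := range f)
          (mk_range_le.trans_lt (by rw [mk_out]; exact hτ.trans_le h))
        exact ⟨γ, fun a ha => (hγ a ha).le⟩)
    rwa [Cardinal.mk_ord_toType, mk_out] at this
  refine ⟨hcof, fun σ h1 h2 h3 ν hν => ?_⟩
  by_contra h
  rw [not_lt] at h
  have hs : (max σ lam.ord.cof).IsRegular := by
    rcases max_cases σ lam.ord.cof with k | k <;> rw [k.1] <;> assumption
  have hlt : lam < ν ^ max σ lam.ord.cof := by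
    refine (lt_power_cof_ord h0).trans_le ((power_le_power_right h).trans ?_)
    rw [← power_mul, mul_eq_max h1.aleph0_le hreg.aleph0_le]
  refine key _ ν hs ?_ (max_le h3.le (Ordinal.cof_ord_le lam)) (max_le h2 hθ) hlt
    fun τ hτ => hκ.pow_le hle hν hτ
  by_contra hk
  exact absurd (hκ.pow_le hle hν (not_le.1 hk)) (not_le.2 hlt)

/-- With `θ = λ⁺` all rows count. -/
theorem injSetRows_succ {lam : Cardinal.{u}}
    (d : (Order.succ lam).ord.ToType → (Order.succ lam).ord.ToType → lam.ord.ToType) :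
    injSetRows (Order.succ lam) d = injSet d := by
  ext α
  refine forall_congr' fun B => forall_congr' fun _ => forall_congr' fun _ =>
    exists_congr fun η => and_congr_right fun _ => ?_
  exact and_iff_right (Cardinal.mk_Iio_toType_ord_lt η)

/-- The case of the posed question: the condition is that `λ` is a strong limit of small
cofinality. -/
theorem rows_top {κ lam : Cardinal.{u}} (hκ : IsSupercompact κ) (hle : κ ≤ lam) :
    (∀ d : (Order.succ lam).ord.ToType → (Order.succ lam).ord.ToType → lam.ord.ToType,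
      IsStationary ({α | Order.cof (Iio α) < κ ∧ Order.cof (Iio α) ≠ lam.ord.cof} \
        injSet d)) ↔ lam.ord.cof < κ ∧ lam.IsStrongLimit := by
  have h0 : ℵ₀ < lam := hκ.1.trans_le hle
  have H := rows_main (θ := Order.succ lam) hκ hle
    ((Ordinal.cof_ord_le lam).trans (Order.le_succ _))
  simp only [injSetRows_succ] at H
  rw [H]
  refine and_congr_right fun hcof => ⟨fun h => ⟨(aleph0_pos.trans h0).ne', fun x hx => ?_⟩,
    fun h σ _ _ hσ ν hν => ?_⟩
  · have hm : max x ℵ₀ < lam := max_lt hx h0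
    have hr := isRegular_succ (le_max_right x ℵ₀)
    have hs : Order.succ (max x ℵ₀) < lam :=
      lt_of_le_of_ne (Order.succ_le_of_lt hm) fun e => by
        rw [← e, hr.cof_ord] at hcof
        exact absurd (e ▸ hle : κ ≤ Order.succ (max x ℵ₀)) (not_le.2 hcof)
    exact (power_le_power_left two_ne_zero ((le_max_left _ _).trans (Order.le_succ _))).trans_lt
      (h _ hr (hs.le.trans (Order.le_succ _)) hs 2 ((natCast_lt_aleph0 (n := 2)).trans h0))
  · refine lt_of_le_of_lt (power_le_power_right (cantor ν).le) ?_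
    rw [← power_mul]
    exact h.isStrongPrelimit (mul_lt_of_lt h0.le hν hσ)

/-- With fewer than `κ` rows no cardinal arithmetic is needed. -/
theorem rows_small {κ lam θ : Cardinal.{u}} (hκ : IsSupercompact κ) (hle : κ ≤ lam)
    (hθ : lam.ord.cof ≤ θ) (hθκ : θ < κ) : lam.ord.cof < κ ∧
      ∀ σ : Cardinal.{u}, σ.IsRegular → σ ≤ θ → σ < lam → ∀ ν < lam, ν ^ σ < lam := by
  have hcof := hθ.trans_lt hθκ
  refine ⟨hcof, fun σ _ h2 _ ν hν => ?_⟩
  rcases lt_or_ge ν κ with h | h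
  · exact (hκ.small_pow_lt h (h2.trans_lt hθκ)).trans_le hle
  · have hr := isRegular_succ (hκ.1.le.trans h)
    have hs : Order.succ ν < lam := lt_of_le_of_ne (Order.succ_le_of_lt hν) fun e => by
      rw [← e, hr.cof_ord] at hcof
      exact absurd (h.trans (Order.le_succ ν)) (not_le.2 hcof)
    exact (hκ.pow_le (h.trans (Order.le_succ ν)) (Order.lt_succ ν) (h2.trans_lt hθκ)).trans_lt hs

end Pool.Agent.P.MP_5f3b23_lc
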