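import Pool.Agent.P.MP_5f3b23_lc.RowSol
import Pool.Agent.P.MP_5f3b23_lc.RowDefs

/-! Colourings that separate all small sets. -/

namespace Pool.Agent.P.MP_5f3b23_lc

open Cardinal Set

universe u

theorem rows_ge {K : Type u} [LinearOrder K] [WellFoundedLT K] {σ : Cardinal.{u}}
    (hσ : σ ≤ #K) : σ ≤ #{η : K | #(Iio η) < σ} := by
  by_contra h
  rw [not_le] at h
  have hne : ({η : K | #(Iio η) < σ}ᶜ).Nonempty := by
    rw [nonempty_compl]
    intro e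
    rw [e, mk_univ] at h
    exact absurd hσ (not_le.2 h)
  refine wellFounded_lt.min_mem _ hne (lt_of_le_of_lt (mk_le_mk_of_subset fun η hη => ?_) h)
  by_contra hη'
  exact wellFounded_lt.not_lt_min _ hη' hη

theorem exists_small_cofinal {K : Type u} [LinearOrder K] {α : K} {B : Set K} (hB : B ⊆ Iio α)
    (hlub : IsLUB B α) : ∃ B' ⊆ B, IsLUB B' α ∧ #B' ≤ Order.cof (Iio α) := by
  obtain ⟨S, hS, hSc⟩ := Order.exists_cof_eq (Iio α)
  have hup : ∀ η < α, ∃ b ∈ B, η < b := fun η hη => (lt_isLUB_iff hlub).1 hη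
  choose up h1 h2 using hup
  refine ⟨range fun s : S => up s.1.1 s.1.2, ?_, ⟨?_, ?_⟩, hSc ▸ mk_range_le⟩
  · rintro _ ⟨s, rfl⟩; exact h1 _ _
  · rintro _ ⟨s, rfl⟩; exact (hB (h1 _ _)).le
  · intro c hc
    refine hlub.2 fun b hb => ?_
    obtain ⟨s, hs, hle⟩ := hS ⟨b, hB hb⟩
    have k1 : b ≤ s.1 := hle
    have k2 : up s.1 s.2 ≤ c := hc ⟨⟨s, hs⟩, rfl⟩
    exact (k1.trans (h2 _ s.2).le).trans k2

theorem sep {lam θ σ : Cardinal.{u}} (h0 : ℵ₀ ≤ lam) (hσl : σ ≤ lam) (hσθ : σ ≤ θ)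
    {T V I : Type u} (hI : #I ≤ σ) (hlt : lam < #V ^ #T) (M : I → Set T)
    (hM : ∀ i, #V ^ #(M i) ≤ lam) :
    ∃ (d : (Order.succ lam).ord.ToType → (Order.succ lam).ord.ToType → lam.ord.ToType)
      (γ : (Order.succ lam).ord.ToType), ∀ α, γ < α →
      (∀ a : Set T, #a ≤ Order.cof (Iio α) * Order.cof (Iio α) → ∃ i, a ⊆ M i) →
      α ∈ injSetRows θ d := by
  classical
  have hK : #(Order.succ lam).ord.ToType = Order.succ lam := Cardinal.mk_ord_toType _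
  obtain ⟨g⟩ : Nonempty ((Order.succ lam).ord.ToType ↪ (T → V)) :=
    (Cardinal.le_def _ _).1 (by rw [hK, ← power_def]; exact Order.succ_le_of_lt hlt)
  obtain ⟨r⟩ : Nonempty (I ↪ {η : (Order.succ lam).ord.ToType | #(Iio η) < σ}) :=
    (Cardinal.le_def _ _).1 (hI.trans (rows_ge (by rw [hK]; exact hσl.trans (Order.le_succ _))))
  have hcode : ∀ i, Nonempty ((M i → V) ↪ lam.ord.ToType) := fun i =>
    (Cardinal.le_def _ _).1 (by rw [Cardinal.mk_ord_toType, ← power_def]; exact hM i)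
  have code := fun i => (hcode i).some
  obtain ⟨l₀⟩ : Nonempty lam.ord.ToType := by
    rw [← mk_ne_zero_iff, Cardinal.mk_ord_toType]; exact (aleph0_pos.trans_le h0).ne'
  obtain ⟨γ, hγ⟩ := bounded_of_le h0 (s := range fun i => (r i).1)
    (mk_range_le.trans (hI.trans hσl))
  refine ⟨fun η β => if h : ∃ i, (r i).1 = η then code h.choose (fun t => g β t.1) else l₀,
    γ, fun α hα hcov B hB hlub => ?_⟩
  obtain ⟨B', hB', hlub', hc⟩ := exists_small_cofinal hB hlub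
  have ht : ∀ p : {p : B' × B' // p.1 ≠ p.2}, ∃ t, g p.1.1.1 t ≠ g p.1.2.1 t := fun p =>
    Function.ne_iff.1 fun e => p.2 (Subtype.ext (g.injective e))
  choose t ht using ht
  obtain ⟨i, hi⟩ := hcov (range t) (mk_range_le.trans ((mk_subtype_le _).trans (by
    simp only [mk_prod, lift_id]
    exact mul_le_mul' hc hc)))
  refine ⟨(r i).1, (hγ _ ⟨i, rfl⟩).trans hα, lt_of_lt_of_le (r i).2 hσθ, B', hB', hlub', ?_⟩
  intro β hβ β' hβ' e
  have h : ∃ j, (r j).1 = (r i).1 := ⟨i, rfl⟩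
  simp only [h, dif_pos] at e
  have hj : h.choose = i := r.injective (Subtype.ext h.choose_spec)
  have e' := (code h.choose).injective e
  by_contra hne
  have hp : (⟨β, hβ⟩ : B') ≠ ⟨β', hβ'⟩ := fun k => hne (congrArg Subtype.val k)
  have hm : t ⟨(⟨β, hβ⟩, ⟨β', hβ'⟩), hp⟩ ∈ M h.choose := by
    rw [hj]; exact hi ⟨_, rfl⟩
  exact ht ⟨(⟨β, hβ⟩, ⟨β', hβ'⟩), hp⟩ (congrFun e' ⟨_, hm⟩)

theorem not_stationary_of_bounded {lam : Cardinal.{u}} (h0 : ℵ₀ ≤ lam)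
    {S : Set (Order.succ lam).ord.ToType} {γ : (Order.succ lam).ord.ToType}
    (h : ∀ α ∈ S, α ≤ γ) : ¬ IsStationary S := by
  intro hS
  have hC : IsClub (Ioi γ) := by
    refine ⟨(isUpperSet_Ioi γ).dirSupClosed, fun a => ?_⟩
    obtain ⟨b, hb⟩ := bounded_of_le h0 (s := {max a γ})
      (by rw [mk_singleton]; exact one_le_aleph0.trans h0)
    have := hb _ rfl
    exact ⟨b, (le_max_right _ _).trans_lt this, ((le_max_left _ _).trans_lt this).le⟩
  obtain ⟨α, h1, h2⟩ := hS hC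
  exact absurd (h α h1) (not_le.2 h2)

/-- With a regular `σ ≥ κ` of rows and more than `λ` functions, all small cofinalities are in
`A(d)`. -/
theorem IsSupercompact.not_stat {κ lam θ σ ν : Cardinal.{u}} (hκ : IsSupercompact κ)
    (h0 : ℵ₀ ≤ lam) (hσ : σ.IsRegular) (hκσ : κ ≤ σ) (hσl : σ ≤ lam) (hσθ : σ ≤ θ)
    (hlt : lam < ν ^ σ) (hν : ∀ τ < κ, ν ^ τ ≤ lam) :
    ∃ d : (Order.succ lam).ord.ToType → (Order.succ lam).ord.ToType → lam.ord.ToType,
      ¬ IsStationary ({α | Order.cof (Iio α) < κ} \ injSetRows θ d) := by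
  obtain ⟨M, hM, hcov⟩ := hκ.cover hσ hκσ
  obtain ⟨d, γ, H⟩ := sep (V := ν.out) h0 hσl hσθ (Cardinal.mk_ord_toType σ).le
    (by rw [mk_out, Cardinal.mk_ord_toType]; exact hlt) M
    (fun i => by rw [mk_out]; exact hν _ (hM i))
  refine ⟨d, not_stationary_of_bounded h0 (γ := γ) fun α hα => ?_⟩
  by_contra h
  exact hα.2 (H α (not_le.1 h) fun a ha =>
    hcov a (ha.trans_lt (mul_lt_of_lt hκ.1.le hα.1 hα.1)))

end Pool.Agent.P.MP_5f3b23_lc
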