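import Pool.Agent.P.MP_5f3b23_lc.Main

/-! Solovay: above a supercompact `κ`, every regular `σ` has `σ ^ (<κ) = σ`. -/

namespace Pool.Agent.P.MP_5f3b23_lc

open Cardinal Set

universe u

theorem sc_iInter {κ : Cardinal.{u}} {I : Type u} (U : Ultrafilter I)
    (hcomp : ∀ S : Set (Set I), #S < κ → (∀ s ∈ S, s ∈ U) → ⋂₀ S ∈ U)
    {J : Type u} (t : J → Set I) (hJ : #J < κ) (ht : ∀ j, t j ∈ U) : {x | ∀ j, x ∈ t j} ∈ U := by
  have := hcomp (range t) (mk_range_le.trans_lt hJ) (by rintro _ ⟨j, rfl⟩; exact ht j)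
  refine Filter.mem_of_superset this fun x hx j => hx _ ⟨j, rfl⟩

theorem IsSupercompact.two_pow_lt {κ : Cardinal.{u}} (hκ : IsSupercompact κ) {ν : Cardinal.{u}}
    (hν : ν < κ) : 2 ^ ν < κ := by
  classical
  by_contra h
  rw [not_lt] at h
  obtain ⟨U, hcomp, hfine, -⟩ := hκ.2 κ.ord.ToType (Cardinal.mk_ord_toType κ).ge
  obtain ⟨g⟩ : Nonempty (κ.ord.ToType ↪ Set ν.out) :=
    (Cardinal.le_def _ _).1 (by rw [Cardinal.mk_ord_toType, mk_set, mk_out]; exact h)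
  have hn : ∀ x : {x : Set κ.ord.ToType // #x < κ}, ∃ a, a ∉ x.1 := by
    intro x
    by_contra hx
    push Not at hx
    have h1 := x.2
    rw [eq_univ_of_forall hx, mk_univ, Cardinal.mk_ord_toType] at h1
    exact lt_irrefl _ h1
  choose n hn using hn
  let t : ν.out → Set {x : Set κ.ord.ToType // #x < κ} := fun ξ =>
    {x | ξ ∈ g (n x) ↔ {y | ξ ∈ g (n y)} ∈ U}
  have ht : ∀ ξ, t ξ ∈ U := by
    intro ξ
    by_cases hξ : {y | ξ ∈ g (n y)} ∈ U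
    · exact Filter.mem_of_superset hξ fun x hx => ⟨fun _ => hξ, fun _ => hx⟩
    · exact Filter.mem_of_superset (Ultrafilter.compl_mem_iff_notMem.2 hξ) fun x hx =>
        ⟨fun h => absurd h hx, fun h => absurd h hξ⟩
  have hY := sc_iInter U hcomp t (by rw [mk_out]; exact hν) ht
  obtain ⟨x, hx⟩ := Ultrafilter.nonempty_of_mem hY
  obtain ⟨y, hy1, hy2⟩ := Ultrafilter.nonempty_of_mem (Filter.inter_mem hY (hfine (n x)))
  have : n x = n y := g.injective (Set.ext fun ξ => (hx ξ).trans (hy1 ξ).symm)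
  exact hn y (this ▸ hy2)

theorem bounded_of_lt {σ : Cardinal.{u}} (hσ : σ.IsRegular) {s : Set σ.ord.ToType}
    (hs : #s < σ) : ∃ γ, ∀ a ∈ s, a < γ := by
  by_contra h
  push Not at h
  have hcof : IsCofinal s := fun γ => by
    obtain ⟨a, ha, hle⟩ := h γ
    exact ⟨a, ha, hle⟩
  have h1 := Order.cof_le hcof
  rw [Ordinal.cof_toType, hσ.cof_ord] at h1
  exact absurd hs (not_lt.2 h1)

/-- A family of `σ` small sets that is cofinal among the small sets. -/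
theorem IsSupercompact.cover {κ σ : Cardinal.{u}} (hκ : IsSupercompact κ) (hσ : σ.IsRegular)
    (hle : κ ≤ σ) : ∃ M : σ.ord.ToType → Set σ.ord.ToType, (∀ δ, #(M δ) < κ) ∧
      ∀ a : Set σ.ord.ToType, #a < κ → ∃ δ, a ⊆ M δ := by
  classical
  obtain ⟨U, hcomp, hfine, hnorm⟩ :=
    hκ.2 σ.ord.ToType (by rw [Cardinal.mk_ord_toType]; exact hle)
  have hκ0 : 0 < κ := aleph0_pos.trans hκ.1
  have hne : Nonempty σ.ord.ToType := by
    rw [← mk_ne_zero_iff, Cardinal.mk_ord_toType]; exact hσ.pos.ne'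
  have hbd : ∀ s : Set σ.ord.ToType, ∃ γ, #s < σ → ∀ a ∈ s, a < γ := by
    intro s
    by_cases hs : #s < σ
    · obtain ⟨γ, hγ⟩ := bounded_of_lt hσ hs
      exact ⟨γ, fun _ => hγ⟩
    · exact ⟨Classical.arbitrary _, fun h => absurd h hs⟩
  choose bd hbd using hbd
  have hs1 : ∀ a : σ.ord.ToType, a < bd {a} := fun a =>
    hbd {a} (by rw [mk_singleton]; exact one_lt_aleph0.trans_le hσ.aleph0_le) a rfl
  have hsup : ∀ x : {x : Set σ.ord.ToType // #x < κ}, ∃ δ, IsLUB x.1 δ := by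
    intro x
    have hub : (upperBounds x.1).Nonempty :=
      ⟨bd x.1, fun a ha => (hbd x.1 (x.2.trans_le hle) a ha).le⟩
    exact ⟨wellFounded_lt.min _ hub, wellFounded_lt.min_mem _ hub,
      fun b hb => not_lt.1 (wellFounded_lt.not_lt_min _ hb)⟩
  choose sp hsp using hsup
  have hc : ∀ δ : σ.ord.ToType, ∃ c : Set σ.ord.ToType, #c < κ ∧
      ((∃ t ⊆ Iio δ, #t < κ ∧ IsLUB t δ) → c ⊆ Iio δ ∧ IsLUB c δ) := by
    intro δ
    by_cases h : ∃ t ⊆ Iio δ, #t < κ ∧ IsLUB t δ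
    · obtain ⟨t, h1, h2, h3⟩ := h
      exact ⟨t, h2, fun _ => ⟨h1, h3⟩⟩
    · exact ⟨∅, by rw [mk_emptyCollection]; exact hκ0, fun h' => absurd h' h⟩
  choose c hc1 hc2 using hc
  have A2 : {x : {x : Set σ.ord.ToType // #x < κ} | ∀ a ∈ x.1, bd {a} ∈ x.1} ∈ U :=
    diag U (fun x => x.1) hnorm (fun a x => bd {a} ∈ x.1) fun a => hfine _
  have hnext : ∀ η : σ.ord.ToType, ∃ η', {x | ∃ m ∈ c (sp x), η < m ∧ m < η'} ∈ U := by
    intro η
    have h1 : ∀ x : {x : Set σ.ord.ToType // #x < κ}, ∃ y, (∀ a ∈ x.1, bd {a} ∈ x.1) →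
        η ∈ x.1 → y ∈ x.1 ∧ ∃ m ∈ c (sp x), η < m ∧ m < y := by
      intro x
      by_cases hx : (∀ a ∈ x.1, bd {a} ∈ x.1) ∧ η ∈ x.1
      · have hlt : x.1 ⊆ Iio (sp x) := fun a ha => (hs1 a).trans_le ((hsp x).1 (hx.1 a ha))
        obtain ⟨k1, k2⟩ := hc2 (sp x) ⟨x.1, hlt, x.2, hsp x⟩
        obtain ⟨m, hm, hηm⟩ := (lt_isLUB_iff k2).1 (hlt hx.2)
        obtain ⟨y, hy, hmy⟩ := (lt_isLUB_iff (hsp x)).1 (k1 hm)
        exact ⟨y, fun _ _ => ⟨hy, m, hm, hηm, hmy⟩⟩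
      · exact ⟨η, fun h1 h2 => absurd ⟨h1, h2⟩ hx⟩
    choose y hy using h1
    have hA := Filter.inter_mem A2 (hfine η)
    obtain ⟨η', hη'⟩ := hnorm y (Filter.mem_of_superset hA fun x hx => (hy x hx.1 hx.2).1)
    refine ⟨η', Filter.mem_of_superset (Filter.inter_mem hA hη') fun x hx => ?_⟩
    have h2 := (hy x hx.1.1 hx.1.2).2
    rw [show y x = η' from hx.2] at h2
    exact h2
  choose nx hnx using hnext
  let h : σ.ord.ToType → σ.ord.ToType := wellFounded_lt.fix fun ξ rec =>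
    bd (range fun ζ : Iio ξ => nx (rec ζ.1 ζ.2))
  have hh : ∀ ξ, h ξ = bd (range fun ζ : Iio ξ => nx (h ζ.1)) := fun ξ =>
    wellFounded_lt.fix_eq _ ξ
  have hlt : ∀ ζ ξ, ζ < ξ → nx (h ζ) < h ξ := by
    intro ζ ξ hζ
    rw [hh ξ]
    exact hbd _ (mk_range_le.trans_lt (Cardinal.mk_Iio_toType_ord_lt ξ)) _ ⟨⟨ζ, hζ⟩, rfl⟩
  refine ⟨fun δ => {ξ | ∃ m ∈ c δ, h ξ < m ∧ m < nx (h ξ)}, fun δ => ?_, fun a ha => ?_⟩
  · refine lt_of_le_of_lt ?_ (hc1 δ)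
    have hm : ∀ ξ : {ξ | ∃ m ∈ c δ, h ξ < m ∧ m < nx (h ξ)}, ∃ m : c δ,
        h ξ.1 < m.1 ∧ m.1 < nx (h ξ.1) := fun ξ => by
      obtain ⟨m, k1, k2⟩ := ξ.2
      exact ⟨⟨m, k1⟩, k2⟩
    choose m hm using hm
    refine mk_le_of_injective (f := m) fun ξ ξ' e => Subtype.ext ?_
    rcases lt_trichotomy ξ.1 ξ'.1 with k | k | k
    · have := ((hm ξ).2.trans (hlt _ _ k)).trans (hm ξ').1
      rw [e] at this
      exact absurd this (lt_irrefl _)
    · exact k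
    · have := ((hm ξ').2.trans (hlt _ _ k)).trans (hm ξ).1
      rw [e] at this
      exact absurd this (lt_irrefl _)
  · obtain ⟨x, hx⟩ := Ultrafilter.nonempty_of_mem
      (sc_iInter U hcomp (fun ξ : a => {x | ∃ m ∈ c (sp x), h ξ.1 < m ∧ m < nx (h ξ.1)}) ha
        fun ξ => hnx _)
    exact ⟨sp x, fun ξ hξ => hx ⟨ξ, hξ⟩⟩

/-- counting functions through a cover of their ranges -/
theorem pow_le_of_cover {T V I : Type u} {c : Cardinal.{u}} (hc : ℵ₀ ≤ c) (hI : #I ≤ c)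
    (M : I → Set V) (hM : ∀ i, #(M i) ^ #T ≤ c) (hcov : ∀ f : T → V, ∃ i, range f ⊆ M i) :
    #V ^ #T ≤ c := by
  rw [power_def]
  have h1 : (univ : Set (T → V)) ⊆ ⋃ i, range fun (g : T → M i) (t : T) => (g t : V) := by
    intro f _
    obtain ⟨i, hi⟩ := hcov f
    exact mem_iUnion.2 ⟨i, fun t => ⟨f t, hi ⟨t, rfl⟩⟩, rfl⟩
  rw [← mk_univ]
  refine (mk_le_mk_of_subset h1).trans ((mk_iUnion_le _).trans ?_)
  refine mul_le_of_le hc hI (ciSup_le' fun i => mk_range_le.trans ?_)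
  rw [← power_def]
  exact hM i

theorem IsSupercompact.small_pow_lt {κ ν τ : Cardinal.{u}} (hκ : IsSupercompact κ) (hν : ν < κ)
    (hτ : τ < κ) : ν ^ τ < κ := by
  refine lt_of_le_of_lt (power_le_power_right (cantor ν).le) ?_
  rw [← power_mul]
  exact hκ.two_pow_lt (mul_lt_of_lt hκ.1.le hν hτ)

theorem IsSupercompact.reg_pow_le {κ σ τ : Cardinal.{u}} (hκ : IsSupercompact κ)
    (hσ : σ.IsRegular) (hle : κ ≤ σ) (hτ : τ < κ) : σ ^ τ ≤ σ := by
  obtain ⟨M, hM, hcov⟩ := hκ.cover hσ hle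
  have := pow_le_of_cover (T := τ.out) hσ.aleph0_le (Cardinal.mk_ord_toType σ).le M
    (fun i => by rw [mk_out]; exact (hκ.small_pow_lt (hM i) hτ).le.trans hle)
    (fun f => hcov _ (mk_range_le.trans_lt (by rw [mk_out]; exact hτ)))
  rwa [Cardinal.mk_ord_toType, mk_out] at this

theorem IsSupercompact.pow_le {κ lam ν τ : Cardinal.{u}} (hκ : IsSupercompact κ) (hle : κ ≤ lam)
    (hν : ν < lam) (hτ : τ < κ) : ν ^ τ ≤ lam := by
  rcases lt_or_ge ν κ with h | h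
  · exact (hκ.small_pow_lt h hτ).le.trans hle
  · exact (power_le_power_right (Order.le_succ ν)).trans
      ((hκ.reg_pow_le (isRegular_succ (hκ.1.le.trans h)) (h.trans (Order.le_succ ν)) hτ).trans
        (Order.succ_le_of_lt hν))

end Pool.Agent.P.MP_5f3b23_lc
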