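import Pool.Agent.P.MP_5f3b23_lc.ZOrd

set_option autoImplicit false

/-! Injections, a strong limit cardinal of cofinality `ω` and its successor, in a model of ZFC. -/

open Pool.Agent.Lib.PosetForcing

namespace Pool.Agent.P.MP_5f3b23_lc.Zf

universe v

variable {M : Type v} [Zm M]

/-- `f` maps `a` injectively into `b` -/
def Inj (f a b : M) : Prop :=
  (∀ x, x ∈ a → ap f x ∈ b) ∧ ∀ x y, x ∈ a → y ∈ a → ap f x = ap f y → x = y

instance df_inj (f a b : (ℕ → M) → M) [Tm f] [Tm a] [Tm b] :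
    Df fun v => Inj (f v) (a v) (b v) := by
  unfold Inj; infer_instance

/-- `a` injects into `b` -/
def Le (a b : M) : Prop := ∃ f, Inj f a b

instance df_le (a b : (ℕ → M) → M) [Tm a] [Tm b] : Df fun v => Le (a v) (b v) := by
  unfold Le; infer_instance

theorem inj_lam {a b : M} (F : M → M) [Tm fun v => F (v 0)] (h1 : ∀ x, x ∈ a → F x ∈ b)
    (h2 : ∀ x y, x ∈ a → y ∈ a → F x = F y → x = y) : Inj (lam a F) a b :=
  ⟨fun x hx => by rw [ap_lam hx]; exact h1 x hx,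
    fun x y hx hy e => h2 x y hx hy (by rwa [ap_lam hx, ap_lam hy] at e)⟩

theorem le_of_fn {a b : M} (F : M → M) [Tm fun v => F (v 0)] (h1 : ∀ x, x ∈ a → F x ∈ b)
    (h2 : ∀ x y, x ∈ a → y ∈ a → F x = F y → x = y) : Le a b := ⟨_, inj_lam F h1 h2⟩

theorem leCard_iff {a b : M} : LeCard mm a b ↔ Le a b := by
  constructor
  · rintro ⟨j, h1, h2⟩
    exact ⟨j, fun x hx => fun_mem h1 hx, fun x y hx hy e =>
      h2 x y _ ((fun_app h1).2 ⟨hx, rfl⟩) ((fun_app h1).2 ⟨hy, e⟩)⟩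
  · rintro ⟨f, h1, h2⟩
    refine ⟨lam a fun x => ap f x, isFun_lam h1, fun x x' y hx hx' => ?_⟩
    obtain ⟨h3, h4⟩ := app_lam.1 hx
    obtain ⟨h5, h6⟩ := app_lam.1 hx'
    exact h2 x x' h3 h5 (h4.symm.trans h6)

theorem Le.trans {a b c : M} (h : Le a b) (h' : Le b c) : Le a c := by
  obtain ⟨f, h1, h2⟩ := h
  obtain ⟨g, h3, h4⟩ := h'
  exact le_of_fn (fun x => ap g (ap f x)) (fun x hx => h3 _ (h1 x hx))
    fun x y hx hy e => h2 x y hx hy (h4 _ _ (h1 x hx) (h1 y hy) e)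

theorem le_of_sub {a b : M} (h : Sub a b) : Le a b :=
  le_of_fn (fun x => x) h fun _ _ _ _ e => e

theorem le_of_surj {a b : M} (F : M → M) [hF : Tm fun v => F (v 0)]
    (h : ∀ y, y ∈ b → ∃ x, x ∈ a ∧ y = F x) : Le b a := by
  have : Fn1 F := ⟨hF⟩
  obtain ⟨g, hg⟩ := choice b a (fun y x => y = F x) h
  exact ⟨g, fun y hy => (hg y hy).1, fun y y' hy hy' e => by
    rw [(hg y hy).2, e, ← (hg y' hy').2]⟩

theorem cantor (a : M) : ¬ Le (pow a) a := by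
  rintro ⟨f, h1, h2⟩
  have hD : sep a (fun x => ∃ Y, Sub Y a ∧ ap f Y = x ∧ x ∉ Y) ∈ pow a :=
    mem_pow.2 fun x hx => (mem_sep.1 hx).1
  by_cases h : ap f (sep a fun x => ∃ Y, Sub Y a ∧ ap f Y = x ∧ x ∉ Y) ∈
      sep a fun x => ∃ Y, Sub Y a ∧ ap f Y = x ∧ x ∉ Y
  · obtain ⟨-, Y, hY, e, hn⟩ := mem_sep.1 h
    rw [h2 _ _ (mem_pow.2 hY) hD e] at hn
    exact hn h
  · exact h (mem_sep.2 ⟨h1 _ hD, _, mem_pow.1 hD, rfl, h⟩)

theorem le_bdd {a b A : M} (h : Le a b) (hA : Sub a A) : ∃ f, f ∈ pow (prd A b) ∧ Inj f a b := by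
  obtain ⟨f, h1, h2⟩ := h
  refine ⟨lam a fun x => ap f x, mem_pow.2 fun p hp => ?_, inj_lam _ h1 h2⟩
  obtain ⟨x, hx, rfl⟩ := mem_lam.1 hp
  exact mem_prd.2 ⟨x, _, hA x hx, h1 x hx, rfl⟩

theorem ex_ord_not_le (X : M) : ∃ a, Od a ∧ ¬ Le a X := by
  obtain ⟨c, hc⟩ := choice (sep (pow (pow X)) fun Y => ∃ x, x ∈ Y) (pow X) (fun Y y => y ∈ Y)
    fun Y hY => by
      obtain ⟨h1, x, hx⟩ := mem_sep.1 hY
      exact ⟨x, mem_pow.1 h1 x hx, hx⟩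
  obtain ⟨a, F, ha, h1, -⟩ := wo (pow X) c fun Y hY hne =>
    (hc Y (mem_sep.2 ⟨mem_pow.2 hY, hne⟩)).2
  exact ⟨a, ha, fun h => cantor X ((le_of_surj (fun b => ap F b) h1).trans h)⟩

/-- `W` is the union of the `ω` levels `L n = k ∪ ⋃_{m < n} P(L m)` -/
structure Tower (k W L : M) : Prop where
  mem : ∀ x, x ∈ W ↔ ∃ n, n ∈ (om : M) ∧ x ∈ ap L n
  lev : ∀ n, n ∈ (om : M) → ∀ x, x ∈ ap L n ↔ x ∈ k ∨ ∃ m, m ∈ n ∧ Sub x (ap L m)

theorem ex_tower (k : M) : ∃ W L, Tower k W L := by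
  obtain ⟨G, hGe⟩ : ∃ G : M → M, G = fun f =>
    un k (sUn (img (sep (sUn (sUn f)) fun y => ∃ m, op m y ∈ f) fun y => pow y)) := ⟨_, rfl⟩
  have hG : Fn1 G := ⟨by rw [hGe]; infer_instance⟩
  refine ⟨sUn (img om fun n => rc G n), lam om fun n => rc G n, fun x => ?_, fun n hn x => ?_⟩
  · rw [mem_sUn]
    constructor
    · rintro ⟨y, hy, hx⟩
      obtain ⟨n, hn, rfl⟩ := mem_img.1 hy
      exact ⟨n, hn, by rw [ap_lam hn]; exact hx⟩
    · rintro ⟨n, hn, hx⟩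
      rw [ap_lam hn] at hx
      exact ⟨_, mem_img.2 ⟨n, hn, rfl⟩, hx⟩
  · rw [ap_lam hn, rc_eq G (od_om.el hn)]
    have e : ∀ f, x ∈ G f ↔ x ∈ k ∨ ∃ m y, op m y ∈ f ∧ Sub x y := fun f => by
      rw [hGe]
      simp only [mem_un, mem_sUn (x := x)]
      refine or_congr_right ⟨?_, ?_⟩
      · rintro ⟨_, h, hx⟩
        obtain ⟨y, hy, rfl⟩ := mem_img.1 h
        obtain ⟨-, m, hm⟩ := mem_sep.1 hy
        exact ⟨m, y, hm, mem_pow.1 hx⟩
      · rintro ⟨m, y, hm, hx⟩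
        exact ⟨pow y, mem_img.2 ⟨y, mem_sep.2 ⟨mem_sUn.2 ⟨upair m y, mem_sUn.2
          ⟨op m y, hm, mem_upair.2 (Or.inr rfl)⟩, mem_upair.2 (Or.inr rfl)⟩, m, hm⟩, rfl⟩,
          mem_pow.2 hx⟩
    rw [e]
    refine or_congr_right ⟨?_, ?_⟩
    · rintro ⟨m, y, hm, hx⟩
      obtain ⟨h1, rfl⟩ := op_mem_lam.1 hm
      exact ⟨m, h1, by rw [ap_lam (od_om.tr hn h1)]; exact hx⟩
    · rintro ⟨m, hm, hx⟩
      rw [ap_lam (od_om.tr hn hm)] at hx
      exact ⟨m, _, op_mem_lam.2 ⟨hm, rfl⟩, hx⟩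

namespace Tower

variable {k W L : M} (T : Tower k W L)
include T

theorem mono {m n : M} (hm : m ∈ (om : M)) (hn : n ∈ (om : M)) (h : Sub m n) :
    Sub (ap L m) (ap L n) := fun x hx =>
  (T.lev n hn x).2 (((T.lev m hm x).1 hx).imp_right fun ⟨j, hj, hs⟩ => ⟨j, h j hj, hs⟩)

theorem of_sub {n x : M} (hn : n ∈ (om : M)) (h : Sub x (ap L n)) : x ∈ W :=
  (T.mem x).2 ⟨suc n, suc_mem_om hn,
    (T.lev _ (suc_mem_om hn) x).2 (Or.inr ⟨n, mem_suc.2 (Or.inr rfl), h⟩)⟩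

theorem base : Sub k W := fun x hx =>
  (T.mem x).2 ⟨emp, emp_mem_om, (T.lev _ emp_mem_om x).2 (Or.inl hx)⟩

theorem upair_mem {a b : M} (ha : a ∈ W) (hb : b ∈ W) : upair a b ∈ W := by
  obtain ⟨m, hm, ha⟩ := (T.mem a).1 ha
  obtain ⟨n, hn, hb⟩ := (T.mem b).1 hb
  by_cases h : n ∈ m
  · refine T.of_sub hm fun x hx => ?_
    rcases mem_upair.1 hx with rfl | rfl
    · exact ha
    · exact T.mono hn hm ((od_om.el hm).1 n h) _ hb
  · refine T.of_sub hn fun x hx => ?_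
    rcases mem_upair.1 hx with rfl | rfl
    · exact T.mono hm hn ((od_om.el hm).sub_of_not_mem (od_om.el hn) h) _ ha
    · exact hb

theorem op_mem {a b : M} (ha : a ∈ W) (hb : b ∈ W) : op a b ∈ W :=
  T.upair_mem (T.upair_mem ha ha) (T.upair_mem ha hb)

theorem not_le {n : M} (hn : n ∈ (om : M)) : ¬ Le W (ap L n) := fun h =>
  cantor _ ((le_of_sub fun _ hx => T.of_sub hn (mem_pow.1 hx)).trans h)

/-- the cardinal of `W`, with an enumeration of `W` and an unbounded map from `ω` -/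
theorem ex_card : ∃ l, Od l ∧ Le l W ∧ Le W l ∧ (∀ b, b ∈ l → ¬ Le l b) ∧
    ∃ f, (∀ n, n ∈ (om : M) → ap f n ∈ l) ∧
      ∀ x, x ∈ l → ∃ n, n ∈ (om : M) ∧ (x ∈ ap f n ∨ x = ap f n) := by
  obtain ⟨c, hc⟩ := choice (sep (pow W) fun Y => ∃ x, x ∈ Y) W
    (fun Y y => y ∈ Y ∧ ∀ z n, z ∈ Y → n ∈ (om : M) → z ∈ ap L n → y ∈ ap L n) fun Y hY => by
      obtain ⟨h1, x, hx⟩ := mem_sep.1 hY
      obtain ⟨n, hn, hxn⟩ := (T.mem x).1 (mem_pow.1 h1 x hx)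
      obtain ⟨m, hm, ⟨hm1, y, hy, hym⟩, hmin⟩ :=
        ex_least (fun n => n ∈ (om : M) ∧ ∃ x, x ∈ Y ∧ x ∈ ap L n) (od_om.el hn) ⟨hn, x, hx, hxn⟩
      exact ⟨y, mem_pow.1 h1 y hy, hy, fun z j hz hj hzj =>
        T.mono hm1 hj (hm.sub_of_not_mem (od_om.el hj) fun h => hmin j h ⟨hj, z, hz, hzj⟩) y hym⟩
  obtain ⟨l, F, hl, hsurj, hF⟩ := wo W c fun Y hY hne =>
    (hc Y (mem_sep.2 ⟨mem_pow.2 hY, hne⟩)).2.1
  have h1 : ∀ b, b ∈ l → ap F b ∈ W ∧ ¬ ∃ g, g ∈ b ∧ ap F b = ap F g := fun b hb => by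
    obtain ⟨Y, hY, h, e⟩ := hF b hb
    rw [← e] at h
    exact (hY _).1 h
  have h2 : ∀ b g n, b ∈ l → g ∈ b → n ∈ (om : M) → ap F b ∈ ap L n → ap F g ∈ ap L n := by
    intro b g n hb hg hn h
    obtain ⟨Y, hY, hc1, e⟩ := hF g (hl.tr hb hg)
    rw [e]
    exact (hc Y (mem_sep.2 ⟨mem_pow.2 fun x hx => ((hY x).1 hx).1, _, hc1⟩)).2.2 _ n
      ((hY _).2 ⟨(h1 b hb).1, fun ⟨g', hg', e'⟩ => (h1 b hb).2 ⟨g', (hl.el hb).tr hg hg', e'⟩⟩) hn h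
  have hinj : ∀ x y, x ∈ l → y ∈ l → ap F x = ap F y → x = y := fun x y hx hy e => by
    rcases (hl.el hx).tri (hl.el hy) with h | h | h
    · exact ((h1 y hy).2 ⟨x, h, e.symm⟩).elim
    · exact h
    · exact ((h1 x hx).2 ⟨y, h, e⟩).elim
  have hWl : Le W l := le_of_surj (fun b => ap F b) hsurj
  refine ⟨l, hl, ⟨F, fun b hb => (h1 b hb).1, hinj⟩, hWl, fun b hb h => ?_, ?_⟩
  · obtain ⟨n, hn, hbn⟩ := (T.mem _).1 (h1 b hb).1
    exact T.not_le hn (hWl.trans (h.trans ⟨F, fun g hg => h2 b g n hb hg hn hbn,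
      fun x y hx hy => hinj x y (hl.tr hb hx) (hl.tr hb hy)⟩))
  · obtain ⟨f, hf⟩ := choice om l (fun n b => ap F b ∉ ap L n) fun n hn => by
      by_contra h
      refine T.not_le hn (le_of_sub fun x hx => ?_)
      obtain ⟨b, hb, rfl⟩ := hsurj x hx
      by_contra h'
      exact h ⟨b, hb, h'⟩
    refine ⟨f, fun n hn => (hf n hn).1, fun x hx => ?_⟩
    obtain ⟨n, hn, hxn⟩ := (T.mem _).1 (h1 x hx).1
    refine ⟨n, hn, ?_⟩
    rcases (hl.el hx).tri (hl.el (hf n hn).1) with h | h | h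
    · exact Or.inl h
    · exact Or.inr h
    · exact ((hf n hn).2 (h2 x _ n hx h hn hxn)).elim

theorem le_suc {g : M} (h : Le g W) : Le (suc g) W := by
  obtain ⟨e, h1, h2⟩ := h
  refine le_of_fn (fun x => sep (upair (ap e x) (ap e x)) fun _ => x ∈ g) (fun x hx => ?_)
    fun x y hx hy E => ?_
  · by_cases hg : x ∈ g
    · obtain ⟨n, hn, h⟩ := (T.mem _).1 (h1 x hg)
      refine T.of_sub hn fun z hz => ?_
      rcases mem_upair.1 (mem_sep.1 hz).1 with rfl | rfl <;> exact h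
    · exact T.of_sub emp_mem_om fun z hz => (hg (mem_sep.1 hz).2).elim
  · have key : ∀ x y : M, x ∈ g → (sep (upair (ap e x) (ap e x)) fun _ => x ∈ g) =
        (sep (upair (ap e y) (ap e y)) fun _ => y ∈ g) → x = y := fun x y hx E => by
      have : ap e x ∈ sep (upair (ap e y) (ap e y)) fun _ => y ∈ g :=
        E ▸ mem_sep.2 ⟨mem_upair.2 (Or.inl rfl), hx⟩
      obtain ⟨h3, h4⟩ := mem_sep.1 this
      rcases mem_upair.1 h3 with h | h <;> exact h2 x y hx h4 h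
    rcases mem_suc.1 hx with h | h
    · exact key x y h E
    · rcases mem_suc.1 hy with h' | h'
      · exact (key y x h' E.symm).symm
      · rw [h, h']

/-- the least ordinal `K` that does not inject into `W`: injections of its elements into `W`,
and every subset of `K` that injects into `W` is bounded -/
theorem ex_succ : ∃ K e, Od K ∧ ¬ Le K W ∧ (∀ g, g ∈ K → Inj (ap e g) g W) ∧
    (∀ g, g ∈ K → suc g ∈ K) ∧ ∀ s, Sub s K → Le s W → ∃ g, g ∈ K ∧ ∀ a, a ∈ s → a ∈ g := by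
  obtain ⟨a, ha, h⟩ := ex_ord_not_le W
  obtain ⟨K, hK, h1, h2⟩ := ex_least (fun a => ¬ Le a W) ha h
  obtain ⟨e, he⟩ := choice K (pow (prd K W)) (fun g f => Inj f g W) fun g hg =>
    le_bdd (not_not.1 (h2 g hg)) (hK.1 g hg)
  have hs : ∀ g, g ∈ K → suc g ∈ K := fun g hg => by
    by_contra hn
    exact h1 ((le_of_sub (hK.sub_of_not_mem (hK.el hg).suc hn)).trans
      (T.le_suc (not_not.1 (h2 g hg))))
  refine ⟨K, e, hK, h1, fun g hg => (he g hg).2, hs, fun s hs1 ⟨j, hj1, hj2⟩ => ?_⟩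
  by_contra hn
  obtain ⟨u, hu⟩ := choice K s (fun g a => g ∈ a) fun g hg => by
    by_contra hn'
    refine hn ⟨suc g, hs g hg, fun a ha => mem_suc.2 ?_⟩
    rcases (hK.el (hs1 a ha)).tri (hK.el hg) with h | h | h
    · exact Or.inl h
    · exact Or.inr h
    · exact (hn' ⟨a, ha, h⟩).elim
  refine h1 (le_of_fn (fun g => op (ap j (ap u g)) (ap (ap e (ap u g)) g))
    (fun g hg => T.op_mem (hj1 _ (hu g hg).1) ((he _ (hs1 _ (hu g hg).1)).2.1 g (hu g hg).2))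
    fun g g' hg hg' E => ?_)
  obtain ⟨e1, e2⟩ := op_inj E
  have e3 := hj2 _ _ (hu g hg).1 (hu g' hg').1 e1
  rw [← e3] at e2
  exact (he _ (hs1 _ (hu g hg).1)).2.2 g g' (hu g hg).2 (e3 ▸ (hu g' hg').2) e2

end Tower

end Pool.Agent.P.MP_5f3b23_lc.Zf
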