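import Pool.Agent.Lib.PosetForcing.CardDefs

set_option autoImplicit false

/-! The notions of the question written inside a structure `(M, mem)`; all quantifiers range
over `M`. -/

open Pool.Agent.Lib.PosetForcing

namespace Pool.Agent.P.MP_5f3b23_lc.Zf

universe v

variable {M : Type v} (mem : M → M → Prop)

/-- `a` is an ordinal: a transitive set of transitive sets -/
def IsOrd (a : M) : Prop :=
  (∀ x, mem x a → IsSub mem x a) ∧ ∀ x y, mem x a → mem y x → IsSub mem y x

/-- `|a| < |b|` -/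
def LtCard (a b : M) : Prop := LeCard mem a b ∧ ¬ LeCard mem b a

/-- `k` is a cardinal: an ordinal that injects into no smaller ordinal -/
def IsCard (k : M) : Prop := IsOrd mem k ∧ ∀ b, mem b k → ¬ LeCard mem k b

/-- `y = x⁺`: the least ordinal that does not inject into `x` -/
def IsSuccCard (y x : M) : Prop :=
  IsOrd mem y ∧ ¬ LeCard mem y x ∧ ∀ z, mem z y → LeCard mem z x

/-- `f : c → a` has unbounded range in the ordinal `a` -/
def CofMap (f c a : M) : Prop :=
  IsFun mem f c a ∧ ∀ x, mem x a → ∃ i y, App mem f i y ∧ (mem x y ∨ x = y)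

/-- `c = cf a`: the least ordinal with an unbounded map into `a` -/
def IsCof (a c : M) : Prop :=
  IsOrd mem c ∧ (∃ f, CofMap mem f c a) ∧ ∀ b, mem b c → ¬ ∃ f, CofMap mem f b a

/-- `l` is a singular cardinal: an infinite cardinal with `cf l < l` -/
def Singular (l : M) : Prop :=
  IsCard mem l ∧ (∃ w, IsOmega mem w ∧ IsSub mem w l) ∧ ∃ c, IsCof mem l c ∧ mem c l

/-- `B ⊆ a` and `sup B = a` -/
def SupIs (B a : M) : Prop := IsSub mem B a ∧ ∀ x, mem x a → ∃ y, mem y B ∧ mem x y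

/-- `C` is a closed unbounded subset of the ordinal `K` -/
def Club (C K : M) : Prop :=
  IsSub mem C K ∧ (∀ x, mem x K → ∃ y, mem y C ∧ (mem x y ∨ x = y)) ∧
    ∀ a, mem a K → (∃ x, mem x a) → (∀ x, mem x a → ∃ y, mem y C ∧ mem y a ∧ mem x y) → mem a C

/-- `d : K × K → l` -/
def IsFun2 (d K l : M) : Prop :=
  ∃ P, (∀ p, mem p P ↔ ∃ x y, mem x K ∧ mem y K ∧ IsPair mem p x y) ∧ IsFun mem d P l

/-- `d(x, y) = z` -/
def App2 (d x y z : M) : Prop := ∃ p, IsPair mem p x y ∧ App mem d p z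

/-- `a ∈ A(d)`: for every cofinal `B ⊆ a` there are `x < a` and a cofinal `B' ⊆ B` on which
`y ↦ d(x, y)` is injective -/
def InA (d a : M) : Prop :=
  ∀ B, SupIs mem B a → ∃ x, mem x a ∧ ∃ B', IsSub mem B' B ∧ SupIs mem B' a ∧
    ∀ y y' z, mem y B' → mem y' B' → App2 mem d x y z → App2 mem d x y' z → y = y'

/-- `U` is an ultrafilter on `I` -/
def IsUltra (U I : M) : Prop :=
  (∀ A, mem A U → IsSub mem A I) ∧ mem I U ∧ (∀ A, mem A U → ∃ x, mem x A) ∧
    (∀ A B, mem A U → IsSub mem A B → IsSub mem B I → mem B U) ∧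
    (∀ A B C, mem A U → mem B U → (∀ x, mem x C ↔ mem x A ∧ mem x B) → mem C U) ∧
    ∀ A B, IsSub mem A I → (∀ x, mem x B ↔ mem x I ∧ ¬ mem x A) → mem A U ∨ mem B U

/-- `U` is closed under intersections of fewer than `k` members -/
def Complete (U I k : M) : Prop :=
  ∀ S A, IsSub mem S U → LtCard mem S k →
    (∀ x, mem x A ↔ mem x I ∧ ∀ s, mem s S → mem x s) → mem A U

/-- `{x ∈ I : a ∈ x} ∈ U` for every `a ∈ X` -/
def Fine (U I X : M) : Prop :=
  ∀ a A, mem a X → (∀ x, mem x A ↔ mem x I ∧ mem a x) → mem A U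

/-- every `f : I → X` with `f x ∈ x` on a set in `U` is constant on a set in `U` -/
def Normal (U I X : M) : Prop :=
  ∀ f A, IsFun mem f I X → (∀ x, mem x A ↔ ∃ y, App mem f x y ∧ mem y x) → mem A U →
    ∃ a B, (∀ x, mem x B ↔ App mem f x a) ∧ mem B U

/-- `k` is supercompact: an uncountable cardinal such that for every cardinal `m ≥ k` there is a
`k`-complete fine normal ultrafilter on `{x ⊆ m : |x| < k}` -/
def Supercompact (k : M) : Prop :=
  IsCard mem k ∧ (∃ w, IsOmega mem w ∧ mem w k) ∧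
    ∀ m, IsCard mem m → IsSub mem k m → ∃ I U,
      (∀ x, mem x I ↔ IsSub mem x m ∧ LtCard mem x k) ∧
        IsUltra mem U I ∧ Complete mem U I k ∧ Fine mem U I m ∧ Normal mem U I m

end Pool.Agent.P.MP_5f3b23_lc.Zf
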