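import Pool.Agent.P.MP_5f3b23_lc.ZDefs

set_option autoImplicit false

/-! Definable predicates and terms in a model of ZFC; the schemes for definable predicates. -/

open Pool.Agent.Lib.PosetForcing

namespace Pool.Agent.P.MP_5f3b23_lc.Zf

universe v

/-- a model of ZFC -/
class Zm (M : Type v) extends Membership M M where
  zfc : IsZFC fun x a : M => x ∈ a

variable {M : Type v} [Zm M]

/-- the membership relation of the model -/
abbrev mm : M → M → Prop := fun x a => x ∈ a

theorem zfc : IsZFC (mm (M := M)) := Zm.zfc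

/-- extend an assignment -/
def cons (x : M) (v : ℕ → M) : ℕ → M
  | 0 => x
  | n + 1 => v n

/-- predicates on assignments that are first-order definable with parameters -/
inductive Df0 : ((ℕ → M) → Prop) → Prop
  | mem (i j : ℕ) : Df0 fun v => v i ∈ v j
  | eq (i j : ℕ) : Df0 fun v => v i = v j
  | cst (i : ℕ) (c : M) : Df0 fun v => v i = c
  | neg {P : (ℕ → M) → Prop} : Df0 P → Df0 fun v => ¬ P v
  | and {P Q : (ℕ → M) → Prop} : Df0 P → Df0 Q → Df0 fun v => P v ∧ Q v
  | all {P : (ℕ → M) → Prop} : Df0 P → Df0 fun v => ∀ x, P (cons x v)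

theorem Df0.congr {P Q : (ℕ → M) → Prop} (h : Df0 P) (e : ∀ v, P v ↔ Q v) : Df0 Q := by
  have : P = Q := funext fun v => propext (e v)
  exact this ▸ h

theorem Df0.ex {P : (ℕ → M) → Prop} (h : Df0 P) : Df0 fun v => ∃ x, P (cons x v) :=
  h.neg.all.neg.congr fun v => by simp

theorem Df0.ren {P : (ℕ → M) → Prop} (h : Df0 P) :
    ∀ s : ℕ → ℕ, Df0 fun v => P fun i => v (s i) := by
  induction h with
  | mem i j => exact fun s => .mem _ _
  | eq i j => exact fun s => .eq _ _
  | cst i c => exact fun s => .cst _ _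
  | neg _ ih => exact fun s => (ih s).neg
  | and _ _ ih1 ih2 => exact fun s => (ih1 s).and (ih2 s)
  | all _ ih =>
    intro s
    refine (ih fun i => Nat.casesOn i 0 fun j => s j + 1).all.congr fun v => ?_
    refine forall_congr' fun x => ?_
    apply Iff.of_eq
    congr 1
    funext i
    cases i <;> rfl

theorem Df0.fml {P : (ℕ → M) → Prop} (h : Df0 P) :
    ∃ (n : ℕ) (c : ℕ → M), (∀ v w : ℕ → M, (∀ i < n, v i = w i) → (P v ↔ P w)) ∧
      ∀ s t : ℕ → ℕ, ∃ φ : Fml, ∀ w : ℕ → M, (∀ j < n, w (t j) = c j) →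
        (Sat mm φ w ↔ P fun i => w (s i)) := by
  have : Nonempty M := let ⟨w, _⟩ := (zfc (M := M)).inf; ⟨w⟩
  induction h with
  | mem i j =>
    refine ⟨i + j + 1, fun _ => Classical.arbitrary M, fun v w h => ?_,
      fun s t => ⟨.mem (s i) (s j), fun w _ => Iff.rfl⟩⟩
    simp only [h i (by omega), h j (by omega)]
  | eq i j =>
    refine ⟨i + j + 1, fun _ => Classical.arbitrary M, fun v w h => ?_,
      fun s t => ⟨.eq (s i) (s j), fun w _ => Iff.rfl⟩⟩
    simp only [h i (by omega), h j (by omega)]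
  | cst i c =>
    refine ⟨i + 1, fun _ => c, fun v w h => ?_, fun s t => ⟨.eq (s i) (t 0), fun w hw => ?_⟩⟩
    · simp only [h i (by omega)]
    · show w (s i) = w (t 0) ↔ _
      rw [hw 0 (by omega)]
  | neg _ ih =>
    obtain ⟨n, c, h1, h2⟩ := ih
    refine ⟨n, c, fun v w h => not_congr (h1 v w h), fun s t => ?_⟩
    obtain ⟨φ, hφ⟩ := h2 s t
    exact ⟨.neg φ, fun w hw => not_congr (hφ w hw)⟩
  | and _ _ ih1 ih2 =>
    obtain ⟨n, c, h1, h2⟩ := ih1
    obtain ⟨n', c', h1', h2'⟩ := ih2
    refine ⟨n + n', fun j => if j < n then c j else c' (j - n),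
      fun v w h => and_congr (h1 v w fun i hi => h i (by omega))
        (h1' v w fun i hi => h i (by omega)), fun s t => ?_⟩
    obtain ⟨φ, hφ⟩ := h2 s t
    obtain ⟨ψ, hψ⟩ := h2' s fun j => t (n + j)
    refine ⟨.and φ ψ, fun w hw => and_congr (hφ w fun j hj => ?_) (hψ w fun j hj => ?_)⟩
    · rw [hw j (by omega)]; simp [hj]
    · rw [hw (n + j) (by omega)]; simp
  | all _ ih =>
    obtain ⟨n, c, h1, h2⟩ := ih
    refine ⟨n, c, fun v w h => forall_congr' fun x => h1 _ _ fun i hi => ?_, fun s t => ?_⟩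
    · cases i with
      | zero => rfl
      | succ i => exact h i (by omega)
    · obtain ⟨m, hm⟩ : ∃ m, ∀ i < n, s i < m ∧ t i < m := by
        refine ⟨(Finset.range n).sup (fun i => s i + t i) + 1, fun i hi => ?_⟩
        have := Finset.le_sup (f := fun i => s i + t i) (Finset.mem_range.2 hi)
        omega
      obtain ⟨φ, hφ⟩ := h2 (fun i => Nat.casesOn i m s) t
      refine ⟨.all m φ, fun w hw => forall_congr' fun x => ?_⟩
      refine (hφ _ fun j hj => ?_).trans (h1 _ _ fun i hi => ?_)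
      · rw [Function.update_of_ne (hm j hj).2.ne, hw j hj]
      · cases i with
        | zero => exact Function.update_self ..
        | succ i => exact Function.update_of_ne (hm i (by omega)).1.ne ..

/-- definable predicate -/
class Df (P : (ℕ → M) → Prop) : Prop where
  out : Df0 P

/-- definable term -/
class Tm (t : (ℕ → M) → M) : Prop where
  out : Df0 fun v => v 0 = t fun i => v (i + 1)

theorem Df.congr {P Q : (ℕ → M) → Prop} (h : Df P) (e : ∀ v, P v ↔ Q v) : Df Q :=
  ⟨h.out.congr e⟩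

theorem Tm.ren {t : (ℕ → M) → M} (h : Tm t) (s : ℕ → ℕ) : Tm fun v => t fun i => v (s i) :=
  ⟨h.out.ren fun i => Nat.casesOn i 0 fun j => s j + 1⟩

instance (priority := high) tm_var (k : ℕ) : Tm fun v : ℕ → M => v k := ⟨.eq 0 (k + 1)⟩

instance (priority := high) tm_cst (c : M) : Tm fun _ : ℕ → M => c := ⟨.cst 0 c⟩

instance df_mem (a b : (ℕ → M) → M) [ha : Tm a] [hb : Tm b] : Df fun v => a v ∈ b v := by
  refine ⟨((ha.out.ren fun i => Nat.casesOn i 1 fun j => j + 2).and
    ((hb.out.ren fun i => Nat.casesOn i 0 fun j => j + 2).and (.mem 1 0))).ex.ex.congr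
      fun v => ?_⟩
  constructor
  · rintro ⟨x, y, h1, h2, h3⟩
    have e1 : x = a v := h1
    have e2 : y = b v := h2
    rw [← e1, ← e2]; exact h3
  · intro h
    exact ⟨a v, b v, rfl, rfl, h⟩

instance df_eq (a b : (ℕ → M) → M) [ha : Tm a] [hb : Tm b] : Df fun v => a v = b v := by
  refine ⟨(ha.out.and hb.out).ex.congr fun v => ?_⟩
  constructor
  · rintro ⟨x, h1, h2⟩
    have e1 : x = a v := h1
    have e2 : x = b v := h2
    rw [← e1, ← e2]
  · intro h
    exact ⟨a v, rfl, h⟩

instance df_not (P : (ℕ → M) → Prop) [h : Df P] : Df fun v => ¬ P v := ⟨h.out.neg⟩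

instance df_and (P Q : (ℕ → M) → Prop) [h : Df P] [h' : Df Q] : Df fun v => P v ∧ Q v :=
  ⟨h.out.and h'.out⟩

instance df_or (P Q : (ℕ → M) → Prop) [h : Df P] [h' : Df Q] : Df fun v => P v ∨ Q v :=
  ⟨(h.out.neg.and h'.out.neg).neg.congr fun v => by tauto⟩

instance df_imp (P Q : (ℕ → M) → Prop) [h : Df P] [h' : Df Q] : Df fun v => P v → Q v :=
  ⟨(h.out.and h'.out.neg).neg.congr fun v => by tauto⟩

instance df_iff (P Q : (ℕ → M) → Prop) [h : Df P] [h' : Df Q] : Df fun v => P v ↔ Q v :=
  (inferInstance : Df fun v => (P v → Q v) ∧ (Q v → P v)).congr fun v => by tauto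

instance df_all (P : M → (ℕ → M) → Prop) [h : Df fun v => P (v 0) fun i => v (i + 1)] :
    Df fun v => ∀ x, P x v := ⟨h.out.all⟩

instance df_ex (P : M → (ℕ → M) → Prop) [h : Df fun v => P (v 0) fun i => v (i + 1)] :
    Df fun v => ∃ x, P x v := ⟨h.out.ex⟩

theorem Df0.subst {P : (ℕ → M) → Prop} (h : Df0 P) :
    ∀ s : ℕ → (ℕ → M) → M, (∀ i, Tm (s i)) → Df fun v => P fun i => s i v := by
  induction h with
  | mem i j => intro s hs; infer_instance
  | eq i j => intro s hs; infer_instance
  | cst i c => intro s hs; infer_instance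
  | neg _ ih => intro s hs; exact ⟨(ih s hs).out.neg⟩
  | and _ _ ih1 ih2 => intro s hs; exact ⟨(ih1 s hs).out.and (ih2 s hs).out⟩
  | all _ ih =>
    intro s hs
    refine ⟨(ih (fun i => Nat.casesOn i (fun w => w 0) fun j w => s j fun k => w (k + 1))
      fun i => ?_).out.all.congr fun v => forall_congr' fun x => ?_⟩
    · cases i with
      | zero => exact tm_var 0
      | succ j => exact (hs j).ren _
    · apply Iff.of_eq
      congr 1
      funext i
      cases i <;> rfl

/-- fixing the parameters of a definable family of predicates -/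
theorem Df.fix {P : M → (ℕ → M) → Prop} (h : Df fun v => P (v 0) fun i => v (i + 1))
    (u : ℕ → M) : Df fun v => P (v 0) u :=
  h.out.subst (fun i => Nat.casesOn i (fun w => w 0) fun j _ => u j) fun i => by
    cases i with
    | zero => exact tm_var 0
    | succ j => exact tm_cst _

/-- fixing the parameters of a definable family of functions -/
theorem Tm.fix {F : M → (ℕ → M) → M} (h : Tm fun v => F (v 0) fun i => v (i + 1))
    (u : ℕ → M) : Tm fun v => F (v 0) u :=
  ⟨(h.out.subst (fun i => Nat.casesOn i (fun w => w 0) fun j => Nat.casesOn j (fun w => w 1)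
    fun k _ => u k) fun i => by
      rcases i with _ | _ | i
      · exact tm_var 0
      · exact tm_var 1
      · exact tm_cst _).out⟩

/-- composing a definable unary function with a term -/
theorem Tm.comp {F : M → M} (h : Tm fun v => F (v 0)) (a : (ℕ → M) → M) [ha : Tm a] :
    Tm fun v => F (a v) :=
  ⟨(h.out.subst (fun i => Nat.casesOn i (fun w => w 0) fun _ w => a fun k => w (k + 1))
    fun i => by
      cases i with
      | zero => exact tm_var 0
      | succ j => exact ha.ren _).out⟩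

/-- composing a definable unary predicate with a term -/
theorem Df.comp {P : M → Prop} (h : Df fun v => P (v 0)) (a : (ℕ → M) → M) [ha : Tm a] :
    Df fun v => P (a v) :=
  h.out.subst (fun _ => a) fun _ => ha

theorem ex_sep (a : M) (P : M → Prop) [h : Df fun v => P (v 0)] :
    ∃ b : M, ∀ x, x ∈ b ↔ x ∈ a ∧ P x := by
  obtain ⟨n, c, -, h2⟩ := h.out.fml
  obtain ⟨φ, hφ⟩ := h2 (fun _ => 0) fun j => j + 1
  obtain ⟨b, hb⟩ := zfc.sep φ (fun k => c (k - 1)) a
  refine ⟨b, fun x => (hb x).trans (and_congr_right fun _ => ?_)⟩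
  refine (hφ _ fun j _ => ?_).trans (by simp)
  simp

theorem ex_img (a : M) (F : M → M) [h : Tm fun v => F (v 0)] :
    ∃ b : M, ∀ y, y ∈ b ↔ ∃ x, x ∈ a ∧ y = F x := by
  obtain ⟨n, c, -, h2⟩ := h.out.fml
  obtain ⟨φ, hφ⟩ := h2 (fun i => Nat.casesOn i 1 fun _ => 0) fun j => j + 2
  have key : ∀ x y, Sat mm φ (Function.update (Function.update (fun k => c (k - 2)) 0 x) 1 y) ↔
      y = F x := fun x y => by
    refine (hφ _ fun j _ => ?_).trans (by simp)
    simp
  obtain ⟨b, hb⟩ := zfc.repl φ (fun k => c (k - 2)) a fun x _ =>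
    ⟨F x, (key x _).2 rfl, fun y hy => (key x y).1 hy⟩
  exact ⟨b, fun y => (hb y).trans (exists_congr fun x => and_congr_right fun _ => key x y)⟩

end Pool.Agent.P.MP_5f3b23_lc.Zf
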