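import Pool.Agent.P.MP_5f3b23_lc.ZUlt

set_option autoImplicit false

/-! The statement of the question holds in every model of ZFC with a supercompact cardinal. -/

open Pool.Agent.Lib.PosetForcing

namespace Pool.Agent.P.MP_5f3b23_lc.Zf

universe v

variable {M : Type v} [Zm M]

/-- there is an unbounded map from `c` into `a` -/
def CfZ (c a : M) : Prop :=
  ∃ f, (∀ i, i ∈ c → ap f i ∈ a) ∧ ∀ x, x ∈ a → ∃ i, i ∈ c ∧ (x ∈ ap f i ∨ x = ap f i)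

instance df_cf (a b : (ℕ → M) → M) [Tm a] [Tm b] : Df fun v => CfZ (a v) (b v) := by
  unfold CfZ; infer_instance

theorem cofMap_iff {c a : M} : (∃ f, CofMap mm f c a) ↔ CfZ c a := by
  constructor
  · rintro ⟨f, h1, h2⟩
    refine ⟨f, fun i hi => fun_mem h1 hi, fun x hx => ?_⟩
    obtain ⟨i, y, h3, h4⟩ := h2 x hx
    obtain ⟨h5, rfl⟩ := (fun_app h1).1 h3
    exact ⟨i, h5, h4⟩
  · rintro ⟨f, h1, h2⟩
    refine ⟨lam c fun i => ap f i, isFun_lam h1, fun x hx => ?_⟩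
    obtain ⟨i, hi, h⟩ := h2 x hx
    exact ⟨i, _, app_lam.2 ⟨hi, rfl⟩, h⟩

theorem ex_cof {a b : M} (hb : Od b) (h : CfZ b a) : ∃ c, IsCof mm a c ∧ Od c ∧ Sub c b ∧ CfZ c a := by
  obtain ⟨c, hc, h1, h2⟩ := ex_least (fun c => CfZ c a) hb h
  exact ⟨c, ⟨hc, cofMap_iff.2 h1, fun x hx h' => h2 x hx (cofMap_iff.1 h')⟩, hc,
    hc.sub_of_not_mem hb fun h' => h2 b h' h, h1⟩

theorem cf_self (a : M) : CfZ a a :=
  ⟨lam a fun x => x, fun i hi => by rw [ap_lam hi]; exact hi,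
    fun x hx => ⟨x, hx, Or.inr (by rw [ap_lam hx])⟩⟩

theorem main {k : M} (hk : Supercompact mm k) :
    ∃ l K : M, Singular mm l ∧ IsSuccCard mm K l ∧ ∀ d, IsFun2 mm d K l → ∀ C, Club mm C K →
      ∃ a, a ∈ C ∧ (∃ c c', IsCof mm l c ∧ IsCof mm a c' ∧ c ≠ c') ∧ ¬ InA mm d a := by
  obtain ⟨⟨hko, hkc⟩, ⟨w, hw, hwk⟩, hsc⟩ := hk
  obtain rfl := isOmega_iff.1 hw
  replace hko : Od k := hko
  replace hwk : om ∈ k := hwk
  have hkom : ¬ Le k om := fun h => hkc om hwk (leCard_iff.2 h)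
  obtain ⟨W, L, T⟩ := ex_tower k
  obtain ⟨l, hl, ⟨F, hF1, hF2⟩, ⟨cd, hcd1, hcd2⟩, hlc, hcf⟩ := T.ex_card
  have hlW : Le l W := ⟨F, hF1, hF2⟩
  have hWl : Le W l := ⟨cd, hcd1, hcd2⟩
  obtain ⟨K, e, hK, hKW, he, hsuc, hbd⟩ := T.ex_succ
  have hkW : Le k W := le_of_sub T.base
  have hol : om ∈ l := by
    by_contra h
    exact hkom (hkW.trans (hWl.trans (le_of_sub (hl.sub_of_not_mem od_om h))))
  have hlK : l ∈ K := by
    by_contra h
    exact hKW ((le_of_sub (hK.sub_of_not_mem hl h)).trans hlW)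
  have hkK : Sub k K := hko.sub_of_not_mem hK fun h =>
    hKW ((le_of_sub (hko.1 K h)).trans hkW)
  obtain ⟨c, hc, hco, hcom, -⟩ := ex_cof od_om (show CfZ om l from hcf)
  have hcl : c ∈ l := by
    by_contra h
    exact not_mem_self _ (hcom _ (hl.sub_of_not_mem hco h _ hol))
  refine ⟨l, K, ⟨⟨hl, fun b hb h => hlc b hb (leCard_iff.1 h)⟩,
    ⟨om, hw, hl.1 om hol⟩, c, hc, hcl⟩, ⟨hK, fun h => hKW ((leCard_iff.1 h).trans hlW),
    fun z hz => leCard_iff.2 (Le.trans ⟨_, he z hz⟩ hWl)⟩, ?_⟩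
  rintro d ⟨P, hP, hd⟩ C ⟨hC1, hC2, hC3⟩
  have hPm : ∀ x y, x ∈ K → y ∈ K → op x y ∈ P := fun x y hx hy =>
    (hP _).2 ⟨x, y, hx, hy, isPair_iff.2 rfl⟩
  obtain ⟨I, U, hI, hU, hcomp, hfine, hnorm⟩ := hsc K
    ⟨hK, fun b hb h => hKW ((leCard_iff.1 h).trans ⟨_, he b hb⟩)⟩ hkK
  have N : Nfu U I K := ⟨fun x hx => ((hI x).1 hx).1, hU, hfine, hnorm, ⟨l, hlK⟩⟩
  have hoK : Sub om K := fun n hn => hK.tr hlK (hl.tr hol hn)
  -- almost all `x` contain `ω`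
  have A3 : (sep I fun x => Sub om x) ∈ U := by
    have h1 : Le (img om fun n => sep I fun x => n ∈ x) om :=
      le_of_surj (fun n => sep I fun x => n ∈ x) fun y hy => mem_img.1 hy
    refine hcomp (img om fun n => sep I fun x => n ∈ x) _ (fun s hs => ?_)
      ⟨leCard_iff.2 (h1.trans (le_of_sub (hko.1 om hwk))),
        fun h => hkom ((leCard_iff.1 h).trans h1)⟩ fun x => ?_
    · obtain ⟨n, hn, rfl⟩ := mem_img.1 hs
      exact N.fin (hoK n hn)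
    · refine mem_sep.trans (and_congr_right fun hx => ⟨fun h s hs => ?_, fun h n hn => ?_⟩)
      · obtain ⟨n, hn, rfl⟩ := mem_img.1 hs
        exact mem_sep.2 ⟨hx, h n hn⟩
      · exact (mem_sep.1 (h _ (mem_img.2 ⟨n, hn, rfl⟩))).2
  have A4 := N.big_cof hK (hK.1 l hlK) fun s hs h => hbd s hs (h.trans hlW)
  -- closure under the next point of the club
  obtain ⟨u, hu⟩ := choice K K (fun a y => y ∈ C ∧ a ∈ y) fun a ha => by
    obtain ⟨y, hy, h⟩ := hC2 (suc a) (hsuc a ha)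
    refine ⟨y, hC1 y hy, hy, ?_⟩
    rcases h with h | h
    · exact (hK.el (hC1 y hy)).tr h (mem_suc.2 (Or.inr rfl))
    · exact h ▸ mem_suc.2 (Or.inr rfl)
  have A2 := N.diag (fun a x => ap u a ∈ x) fun a ha => N.fin (hu a ha).1
  -- closure under the codes
  have hH : ∀ m b g : M, m ∈ (om : M) → (sep (ap L m) fun p => ∃ y, y ∈ g ∧
      p = op (ap (ap e g) y) (ap F (ap d (op y b)))) ∈ W := fun m b g hm =>
    T.of_sub hm fun x hx => (mem_sep.1 hx).1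
  have A1 := N.diag (fun m x => m ∈ (om : M) → ∀ b, b ∈ x → ∀ g, g ∈ x →
      ap cd (sep (ap L m) fun p => ∃ y, y ∈ g ∧
        p = op (ap (ap e g) y) (ap F (ap d (op y b)))) ∈ x) fun m hm => by
    by_cases h : m ∈ (om : M)
    · exact N.mono (N.diag (fun b x => ∀ g, g ∈ x → ap cd (sep (ap L m) fun p => ∃ y, y ∈ g ∧
        p = op (ap (ap e g) y) (ap F (ap d (op y b)))) ∈ x) fun b _ =>
          N.diag (fun g x => ap cd (sep (ap L m) fun p => ∃ y, y ∈ g ∧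
            p = op (ap (ap e g) y) (ap F (ap d (op y b)))) ∈ x) fun g _ =>
              N.fin (hK.tr hlK (hcd1 _ (hH m b g h)))) fun x _ h' _ => h'
    · exact N.mono (N.fin hm) fun x _ _ h' => (h h').elim
  obtain ⟨x, hx, h1, h2, h3, h4⟩ := N.ex (N.and A1 (N.and A2 (N.and A3 A4)))
  have hxK := N.sub x hx
  obtain ⟨g0, hg0, hxg⟩ := hbd x hxK ((leCard_iff.1 ((hI x).1 hx).2.1).trans hkW)
  have ha : Od (sUn x) := od_sUn fun y hy => hK.el (hxK y hy)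
  have haK : sUn x ∈ K := by
    by_contra h
    obtain ⟨y, hy, hgy⟩ := mem_sUn.1 (hK.sub_of_not_mem ha h g0 hg0)
    exact (hK.el hg0).asymm (hxg y hy) hgy
  have hxa : Sub x (sUn x) := fun y hy => mem_sUn.2 ⟨_, h2 y hy, (hu y (hxK y hy)).2.2⟩
  refine ⟨sUn x, hC3 _ haK ⟨emp, hxa _ (h3 _ emp_mem_om)⟩ fun b hb => ?_, ?_, fun hA => ?_⟩
  · obtain ⟨y, hy, hby⟩ := mem_sUn.1 hb
    exact ⟨ap u y, (hu y (hxK y hy)).2.1, hxa _ (h2 y hy),
      (hK.el (hu y (hxK y hy)).1).tr (hu y (hxK y hy)).2.2 hby⟩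
  · obtain ⟨c', hc', -, -, f, hf1, hf2⟩ := ex_cof ha (cf_self _)
    refine ⟨c, c', hc, hc', fun E => ?_⟩
    subst E
    obtain ⟨up, hup⟩ := choice c x (fun i y => ap f i ∈ y) fun i hi => mem_sUn.1 (hf1 i hi)
    refine h4 (img c fun i => ap up i) (fun y hy => ?_) (fun y hy => ?_)
      ((le_of_surj (fun i => ap up i) fun y hy => mem_img.1 hy).trans (le_of_sub fun n hn =>
        mem_sep.2 ⟨h3 n (hcom n hn), hl.tr hol (hcom n hn)⟩))
    · obtain ⟨i, hi, rfl⟩ := mem_img.1 hy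
      exact (hup i hi).1
    · obtain ⟨i, hi, h⟩ := hf2 y (hxa y hy)
      refine ⟨_, mem_img.2 ⟨i, hi, rfl⟩, Or.inl ?_⟩
      rcases h with h | h
      · exact (hK.el (hxK _ (hup i hi).1)).tr (hup i hi).2 h
      · exact h ▸ (hup i hi).2
  · obtain ⟨y, hy, B, hB, hBs, hinj⟩ := hA x ⟨hxa, fun b hb => mem_sUn.1 hb⟩
    obtain ⟨g, hg, hyg⟩ := mem_sUn.1 hy
    have hyK : y ∈ K := hK.tr haK hy
    have hdl : ∀ b, b ∈ B → ap d (op y b) ∈ l := fun b hb =>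
      fun_mem hd (hPm y b hyK (hxK b (hB b hb)))
    obtain ⟨mf, hmf⟩ := choice B om
      (fun b m => op (ap (ap e g) y) (ap F (ap d (op y b))) ∈ ap L m) fun b hb =>
        (T.mem _).1 (T.op_mem ((he g (hxK g hg)).1 y hyg) (hF1 _ (hdl b hb)))
    refine h4 B hB (fun z hz => ?_) (le_of_fn (fun b => ap cd (sep (ap L (ap mf b)) fun p =>
      ∃ y, y ∈ g ∧ p = op (ap (ap e g) y) (ap F (ap d (op y b))))) (fun b hb => ?_)
        fun b b' hb hb' E => ?_)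
    · obtain ⟨b, hb, h⟩ := hBs.2 z (hxa z hz)
      exact ⟨b, hb, Or.inl h⟩
    · exact mem_sep.2 ⟨h1 _ (h3 _ (hmf b hb).1) (hmf b hb).1 b (hB b hb) g hg,
        hcd1 _ (hH _ b g (hmf b hb).1)⟩
    · have E' := hcd2 _ _ (hH _ b g (hmf b hb).1) (hH _ b' g (hmf b' hb').1) E
      have h5 : op (ap (ap e g) y) (ap F (ap d (op y b))) ∈ sep (ap L (ap mf b')) fun p =>
          ∃ y, y ∈ g ∧ p = op (ap (ap e g) y) (ap F (ap d (op y b'))) :=
        E' ▸ mem_sep.2 ⟨(hmf b hb).2, y, hyg, rfl⟩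
      obtain ⟨-, y', hy', h6⟩ := mem_sep.1 h5
      obtain ⟨h7, h8⟩ := op_inj h6
      obtain rfl := (he g (hxK g hg)).2 y y' hyg hy' h7
      have h9 := hF2 _ _ (hdl b hb) (hdl b' hb') h8
      exact hinj b b' (ap d (op y b)) hb hb'
        ⟨_, isPair_iff.2 rfl, (fun_app hd).2 ⟨hPm y b hyK (hxK b (hB b hb)), rfl⟩⟩
        ⟨_, isPair_iff.2 rfl, (fun_app hd).2 ⟨hPm y b' hyK (hxK b' (hB b' hb')), h9⟩⟩

end Pool.Agent.P.MP_5f3b23_lc.Zf
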