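import Pool.Agent.P.MP_5f3b23_lc.ZSet

set_option autoImplicit false

/-! Ordinals, `ω`, transfinite recursion and the well-ordering theorem in a model of ZFC. -/

open Pool.Agent.Lib.PosetForcing

namespace Pool.Agent.P.MP_5f3b23_lc.Zf

universe v

variable {M : Type v} [Zm M]

open Classical in
/-- definite description -/
noncomputable def the (P : M → Prop) : M :=
  if h : ∃ y, P y ∧ ∀ z, P z → z = y then h.choose else emp

theorem the_eq {P : M → Prop} {y : M} (h : P y) (hu : ∀ z, P z → z = y) : the P = y := by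
  have h' : ∃ y, P y ∧ ∀ z, P z → z = y := ⟨y, h, hu⟩
  rw [the, dif_pos h']
  exact hu _ h'.choose_spec.1

instance tm_the (P : M → (ℕ → M) → Prop) [hP : Df fun v => P (v 0) fun i => v (i + 1)] :
    Tm fun v => the fun y => P y v := by
  have h1 : Df fun v : ℕ → M => P (v 0) fun i => v (i + 1 + 1) :=
    ⟨hP.out.ren fun i => Nat.casesOn i 0 fun j => j + 2⟩
  have h2 : Df fun v : ℕ → M => P (v 0) fun i => v (i + 1 + 1 + 1) :=
    ⟨hP.out.ren fun i => Nat.casesOn i 0 fun j => j + 3⟩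
  refine ⟨(inferInstance : Df fun v : ℕ → M =>
    ((P (v 0) fun i => v (i + 1)) ∧ ∀ z, (P z fun i => v (i + 1)) → z = v 0) ∨
      ((¬ ∃ y, (P y fun i => v (i + 1)) ∧ ∀ z, (P z fun i => v (i + 1)) → z = y) ∧
        v 0 = emp)).out.congr fun v => ?_⟩
  constructor
  · rintro (⟨h, hu⟩ | ⟨h, e⟩)
    · exact (the_eq (P := fun y => P y fun i => v (i + 1)) h hu).symm
    · rw [the, dif_neg h]; exact e
  · intro e
    by_cases h : ∃ y, (P y fun i => v (i + 1)) ∧ ∀ z, (P z fun i => v (i + 1)) → z = y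
    · obtain ⟨y, hy, hu⟩ := h
      rw [the_eq (P := fun y => P y fun i => v (i + 1)) hy hu] at e
      rw [e]; exact Or.inl ⟨hy, hu⟩
    · rw [the, dif_neg h] at e
      exact Or.inr ⟨h, e⟩

theorem not_mem_self (a : M) : a ∉ a := fun h => by
  obtain ⟨x, hx, hm⟩ := zfc.found (upair a a) ⟨a, mem_upair.2 (Or.inl rfl)⟩
  have : x = a := by rcases mem_upair.1 hx with h | h <;> exact h
  subst this
  exact hm x h hx

/-- ordinal -/
def Od (a : M) : Prop := (∀ x, x ∈ a → Sub x a) ∧ ∀ x y, x ∈ a → y ∈ x → Sub y x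

instance df_od (a : (ℕ → M) → M) [Tm a] : Df fun v => Od (a v) := by
  unfold Od; infer_instance

theorem Od.tr {a x y : M} (h : Od a) (hx : x ∈ a) (hy : y ∈ x) : y ∈ a := h.1 x hx y hy

theorem Od.el {a x : M} (h : Od a) (hx : x ∈ a) : Od x :=
  ⟨fun y hy => h.2 x y hx hy, fun y z hy hz => h.2 y z (h.tr hx hy) hz⟩

theorem ex_least (P : M → Prop) [Df fun v => P (v 0)] {a : M} (ha : Od a) (h : P a) :
    ∃ b, Od b ∧ P b ∧ ∀ c, c ∈ b → ¬ P c := by
  obtain ⟨b, hb, hm⟩ := zfc.found (sep (suc a) P) ⟨a, mem_sep.2 ⟨mem_suc.2 (Or.inr rfl), h⟩⟩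
  obtain ⟨h1, h2⟩ := mem_sep.1 hb
  rcases mem_suc.1 h1 with h1 | rfl
  · exact ⟨b, ha.el h1, h2, fun c hc hP =>
      hm c hc (mem_sep.2 ⟨mem_suc.2 (Or.inl (ha.tr h1 hc)), hP⟩)⟩
  · exact ⟨b, ha, h2, fun c hc hP => hm c hc (mem_sep.2 ⟨mem_suc.2 (Or.inl hc), hP⟩)⟩

theorem od_ind (P : M → Prop) [hP : Df fun v => P (v 0)]
    (h : ∀ a, Od a → (∀ b, b ∈ a → P b) → P a) {a : M} (ha : Od a) : P a := by
  by_contra hn
  obtain ⟨b, hb, h1, h2⟩ := ex_least (fun x => ¬ P x) ha hn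
  exact h1 (h b hb fun c hc => not_not.1 (h2 c hc))

theorem Od.tri {a b : M} (ha : Od a) (hb : Od b) : a ∈ b ∨ a = b ∨ b ∈ a := by
  refine od_ind (fun a => ∀ b, Od b → a ∈ b ∨ a = b ∨ b ∈ a) (fun a ha iha b hb => ?_) ha b hb
  refine od_ind (fun b => a ∈ b ∨ a = b ∨ b ∈ a) (fun b hb ihb => ?_) hb
  by_contra hn
  simp only [not_or] at hn
  refine hn.2.1 (Sub.antisymm (fun x hx => ?_) fun y hy => ?_)
  · rcases iha x hx b hb with h | h | h
    · exact h
    · exact (hn.2.2 (h ▸ hx)).elim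
    · exact (hn.2.2 (ha.tr hx h)).elim
  · rcases ihb y hy with h | h | h
    · exact (hn.1 (hb.tr hy h)).elim
    · exact (hn.1 (h ▸ hy)).elim
    · exact h

theorem Od.asymm {a b : M} (ha : Od a) (h : b ∈ a) : a ∉ b := fun h' =>
  not_mem_self a (ha.tr h h')

theorem Od.sub_of_not_mem {a b : M} (ha : Od a) (hb : Od b) (h : b ∉ a) : Sub a b := by
  rcases ha.tri hb with h1 | h1 | h1
  · exact hb.1 a h1
  · rw [h1]; exact Sub.rfl
  · exact (h h1).elim

theorem Od.suc {a : M} (ha : Od a) : Od (suc a) := by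
  refine ⟨fun x hx y hy => mem_suc.2 (Or.inl ?_), fun x y hx hy => ?_⟩
  · rcases mem_suc.1 hx with h | rfl
    exacts [ha.tr h hy, hy]
  · rcases mem_suc.1 hx with h | rfl
    exacts [ha.2 x y h hy, ha.1 y hy]

theorem od_sUn {S : M} (h : ∀ x, x ∈ S → Od x) : Od (sUn S) := by
  refine ⟨fun x hx y hy => ?_, fun x y hx hy => ?_⟩
  · obtain ⟨s, hs, hxs⟩ := mem_sUn.1 hx
    exact mem_sUn.2 ⟨s, hs, (h s hs).tr hxs hy⟩
  · obtain ⟨s, hs, hxs⟩ := mem_sUn.1 hx
    exact (h s hs).2 x y hxs hy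

theorem od_emp : Od (emp : M) :=
  ⟨fun x hx => (not_mem_emp x hx).elim, fun x _ hx => (not_mem_emp x hx).elim⟩

/-- the least ordinal with a property -/
noncomputable def least (P : M → Prop) : M := the fun b => Od b ∧ P b ∧ ∀ c, c ∈ b → ¬ P c

instance tm_least (P : M → (ℕ → M) → Prop) [hP : Df fun v => P (v 0) fun i => v (i + 1)] :
    Tm fun v => least fun y => P y v := by
  have h1 : Df fun v : ℕ → M => P (v 0) fun i => v (i + 1 + 1) :=
    ⟨hP.out.ren fun i => Nat.casesOn i 0 fun j => j + 2⟩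
  unfold least; infer_instance

theorem least_spec (P : M → Prop) [Df fun v => P (v 0)] {a : M} (ha : Od a) (h : P a) :
    Od (least P) ∧ P (least P) ∧ ∀ c, c ∈ least P → ¬ P c := by
  obtain ⟨b, hb⟩ := ex_least P ha h
  have : least P = b := the_eq hb fun z hz => by
    rcases hz.1.tri hb.1 with h | h | h
    · exact (hb.2.2 z h hz.2.1).elim
    · exact h
    · exact (hz.2.2 b h hb.2.1).elim
  rw [this]; exact hb

/-- inductive set -/
def Ind (w : M) : Prop := emp ∈ w ∧ ∀ x, x ∈ w → suc x ∈ w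

instance df_ind (a : (ℕ → M) → M) [Tm a] : Df fun v => Ind (a v) := by
  unfold Ind; infer_instance

theorem isInductive_iff {w : M} : IsInductive mm w ↔ Ind w := by
  refine and_congr ⟨fun ⟨e, he, h⟩ => eq_emp h ▸ he, fun h => ⟨_, h, not_mem_emp⟩⟩ ?_
  refine forall_congr' fun x => imp_congr_right fun _ => ⟨fun ⟨y, hy, h⟩ => ?_, fun h => ?_⟩
  · have : y = suc x := ext fun z => (h z).trans mem_suc.symm
    exact this ▸ hy
  · exact ⟨_, h, fun _ => mem_suc⟩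

/-- the set of natural numbers of the model -/
noncomputable def om : M := sep (zfc (M := M)).inf.choose fun x => ∀ w : M, Ind w → x ∈ w

theorem mem_om {x : M} : x ∈ (om : M) ↔ ∀ w : M, Ind w → x ∈ w :=
  mem_sep.trans ⟨fun h => h.2, fun h => ⟨h _ (isInductive_iff.1 zfc.inf.choose_spec), h⟩⟩

theorem emp_mem_om : emp ∈ (om : M) := mem_om.2 fun _ h => h.1

theorem suc_mem_om {n : M} (h : n ∈ (om : M)) : suc n ∈ (om : M) :=
  mem_om.2 fun w hw => hw.2 n (mem_om.1 h w hw)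

theorem isOmega_iff {w : M} : IsOmega mm w ↔ w = om := by
  simp only [IsOmega, isInductive_iff]
  constructor
  · rintro ⟨h1, h2⟩
    exact Sub.antisymm (h2 om ⟨emp_mem_om, fun _ => suc_mem_om⟩) fun x hx => mem_om.1 hx w h1
  · rintro rfl
    exact ⟨⟨emp_mem_om, fun _ => suc_mem_om⟩, fun w hw x hx => mem_om.1 hx w hw⟩

theorem om_ind (P : M → Prop) [Df fun v => P (v 0)] (h0 : P emp)
    (hs : ∀ n, n ∈ (om : M) → P n → P (suc n)) {n : M} (hn : n ∈ (om : M)) : P n :=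
  (mem_sep.1 (mem_om.1 hn (sep om P) ⟨mem_sep.2 ⟨emp_mem_om, h0⟩, fun x hx =>
    mem_sep.2 ⟨suc_mem_om (mem_sep.1 hx).1, hs x (mem_sep.1 hx).1 (mem_sep.1 hx).2⟩⟩)).2

theorem od_om : Od (om : M) := by
  refine ⟨fun n hn => om_ind (fun n => Sub n om) (fun x hx => (not_mem_emp x hx).elim)
    (fun n hn ih x hx => ?_) hn, fun n y hn hy => ?_⟩
  · rcases mem_suc.1 hx with h | rfl
    exacts [ih x h, hn]
  · exact (om_ind Od od_emp (fun _ _ h => h.suc) hn).1 y hy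

section Rec

variable (G : M → M) [hG : Fn1 G]

/-- `f` satisfies the recursion on `a` -/
def Apx (f a : M) : Prop := ∀ x, x ∈ a → ap f x = G (lam x fun y => ap f y)

instance df_apx (a b : (ℕ → M) → M) [Tm a] [Tm b] : Df fun v => Apx G (a v) (b v) := by
  unfold Apx; infer_instance

/-- the function defined by transfinite recursion -/
noncomputable def rc (a : M) : M := the fun y => ∃ f, Apx G f a ∧ y = G (lam a fun y => ap f y)

instance tm_rc (a : (ℕ → M) → M) [Tm a] : Tm fun v => rc G (a v) := by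
  unfold rc; infer_instance

omit hG in
theorem apx_unique {f g a : M} (ha : Od a) (hf : Apx G f a) (hg : Apx G g a) {x : M}
    (hx : x ∈ a) : ap f x = ap g x := by
  refine od_ind (fun x => x ∈ a → ap f x = ap g x) (fun x _ ih hx => ?_) (ha.el hx) hx
  rw [hf x hx, hg x hx, lam_congr fun y hy => ih y hy (ha.tr hx hy)]

omit hG in
theorem rc_of_apx {f a : M} (ha : Od a) (hf : Apx G f a) :
    rc G a = G (lam a fun y => ap f y) :=
  the_eq ⟨f, hf, rfl⟩ fun _ ⟨g, hg, e⟩ => by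
    rw [e, lam_congr fun y hy => apx_unique G ha hg hf hy]

omit hG in
theorem ap_of_apx {f a : M} (ha : Od a) (hf : Apx G f a) {x : M} (hx : x ∈ a) :
    ap f x = rc G x := by
  rw [rc_of_apx G (ha.el hx) fun y hy => hf y (ha.tr hx hy), hf x hx]

theorem ex_apx {a : M} (ha : Od a) : ∃ f, Apx G f a := by
  refine od_ind (fun a => ∃ f, Apx G f a) (fun a ha ih => ?_) ha
  refine ⟨lam a fun x => rc G x, fun x hx => ?_⟩
  obtain ⟨g, hg⟩ := ih x hx
  rw [ap_lam hx, rc_of_apx G (ha.el hx) hg]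
  congr 1
  exact lam_congr fun y hy => by rw [ap_lam (ha.tr hx hy), ap_of_apx G (ha.el hx) hg hy]

theorem rc_eq {a : M} (ha : Od a) : rc G a = G (lam a fun y => rc G y) := by
  obtain ⟨f, hf⟩ := ex_apx G ha
  rw [rc_of_apx G ha hf, lam_congr fun y hy => ap_of_apx G ha hf hy]

end Rec

theorem burali (O : M) : ∃ a, Od a ∧ a ∉ O := by
  by_contra h
  push Not at h
  have h1 : Od (sUn (sep O Od)) := od_sUn fun x hx => (mem_sep.1 hx).2
  exact not_mem_self _ (mem_sUn.2 ⟨_, mem_sep.2 ⟨h _ h1.suc, h1.suc⟩, mem_suc.2 (Or.inr rfl)⟩)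

/-- enumeration of a set along a choice function -/
theorem wo (X c : M) (hc : ∀ Y, Sub Y X → (∃ x, x ∈ Y) → ap c Y ∈ Y) :
    ∃ a F : M, Od a ∧ (∀ x, x ∈ X → ∃ b, b ∈ a ∧ x = ap F b) ∧
      ∀ b, b ∈ a → ∃ Y : M, (∀ x, x ∈ Y ↔ x ∈ X ∧ ¬ ∃ g, g ∈ b ∧ x = ap F g) ∧ ap c Y ∈ Y ∧
        ap F b = ap c Y := by
  obtain ⟨G, hGe⟩ : ∃ G : M → M, G = fun f => ap c (sep X fun x => ¬ ∃ g, op g x ∈ f) := ⟨_, rfl⟩
  have hG : Fn1 G := ⟨by rw [hGe]; infer_instance⟩
  have hval : ∀ b, Od b → rc G b = ap c (sep X fun x => ¬ ∃ g, g ∈ b ∧ x = rc G g) := by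
    intro b hb
    rw [rc_eq G hb]
    conv_lhs => rw [hGe]
    simp only [← hGe]
    congr 1
    refine ext fun x => ?_
    simp only [mem_sep, op_mem_lam]
  have hex : ∃ a : M, Od a ∧ ¬ ∃ x, x ∈ sep X fun x => ¬ ∃ g, g ∈ a ∧ x = rc G g := by
    by_contra h
    have h' : ∀ a, Od a → rc G a ∈ X ∧ ¬ ∃ g, g ∈ a ∧ rc G a = rc G g := fun a ha => by
      have h1 : ∃ x, x ∈ sep X fun x => ¬ ∃ g, g ∈ a ∧ x = rc G g := by
        by_contra h2
        exact h ⟨a, ha, h2⟩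
      have h2 := hc _ (fun x hx => (mem_sep.1 hx).1) h1
      rw [← hval a ha] at h2
      exact mem_sep.1 h2
    obtain ⟨a, ha, hn⟩ := burali (img X fun x => the fun b => Od b ∧ x = rc G b)
    refine hn (mem_img.2 ⟨rc G a, (h' a ha).1, (the_eq ⟨ha, rfl⟩ fun z hz => ?_).symm⟩)
    rcases hz.1.tri ha with h1 | h1 | h1
    · exact ((h' a ha).2 ⟨z, h1, hz.2⟩).elim
    · exact h1
    · exact ((h' z hz.1).2 ⟨a, h1, hz.2.symm⟩).elim
  obtain ⟨a0, ha0, h0⟩ := hex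
  obtain ⟨a, ha, h1, h2⟩ :=
    ex_least (fun a : M => ¬ ∃ x, x ∈ sep X fun x => ¬ ∃ g, g ∈ a ∧ x = rc G g) ha0 h0
  refine ⟨a, lam a fun b => rc G b, ha, fun x hx => ?_, fun b hb => ?_⟩
  · by_contra h
    refine h1 ⟨x, mem_sep.2 ⟨hx, fun ⟨g, hg, e⟩ => h ⟨g, hg, ?_⟩⟩⟩
    rw [ap_lam hg]; exact e
  · refine ⟨sep X fun x => ¬ ∃ g, g ∈ b ∧ x = rc G g, fun x => ?_,
      hc _ (fun x hx => (mem_sep.1 hx).1) (not_not.1 (h2 b hb)), ?_⟩
    · rw [mem_sep]
      refine and_congr_right fun _ => not_congr (exists_congr fun g => and_congr_right fun hg => ?_)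
      rw [ap_lam (ha.tr hb hg)]
    · rw [ap_lam hb, hval b (ha.el hb)]

end Pool.Agent.P.MP_5f3b23_lc.Zf
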