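import Pool.Agent.P.MP_5f3b23_lc.ZDf

set_option autoImplicit false

/-! Basic set operations in a model of ZFC, as definable terms. -/

open Pool.Agent.Lib.PosetForcing

namespace Pool.Agent.P.MP_5f3b23_lc.Zf

universe v

variable {M : Type v} [Zm M]

theorem ext {a b : M} (h : ∀ x, x ∈ a ↔ x ∈ b) : a = b := zfc.ext a b h

instance : Nonempty M := let ⟨w, _⟩ := (zfc (M := M)).inf; ⟨w⟩

theorem tm_of_mem (t : (ℕ → M) → M) (P : M → (ℕ → M) → Prop) (h : ∀ v x, x ∈ t v ↔ P x v)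
    [hP : Df fun v => P (v 0) fun i => v (i + 1)] : Tm t := by
  have h1 : Df fun v : ℕ → M => P (v 0) fun i => v (i + 1 + 1) :=
    ⟨hP.out.ren fun i => Nat.casesOn i 0 fun j => j + 2⟩
  refine ⟨(inferInstance : Df fun v : ℕ → M => ∀ x, x ∈ v 0 ↔ P x fun i => v (i + 1)).out.congr
    fun v => ⟨fun h' => ext fun x => (h' x).trans (h _ x).symm, fun e x => ?_⟩⟩
  rw [e]; exact h _ x

instance (priority := low) tm_tail (t : (ℕ → M) → M) (s : ℕ → ℕ) [h : Tm t] :
    Tm fun v => t fun i => v (s i) := h.ren _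

/-- definable unary function -/
class Fn1 (G : M → M) : Prop where
  out : Tm fun v => G (v 0)

instance (priority := low) tm_fn1 (G : M → M) (a : (ℕ → M) → M) [h : Fn1 G] [Tm a] :
    Tm fun v => G (a v) := h.out.comp a

/-- separation -/
noncomputable def sep (a : M) (P : M → Prop) : M :=
  Classical.epsilon fun b : M => ∀ x, x ∈ b ↔ x ∈ a ∧ P x

theorem mem_sep {a : M} {P : M → Prop} [Df fun v => P (v 0)] {x : M} :
    x ∈ sep a P ↔ x ∈ a ∧ P x := Classical.epsilon_spec (ex_sep a P) x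

instance tm_sep (a : (ℕ → M) → M) (P : M → (ℕ → M) → Prop) [Tm a]
    [hP : Df fun v => P (v 0) fun i => v (i + 1)] : Tm fun v => sep (a v) fun x => P x v :=
  tm_of_mem _ (fun x v => x ∈ a v ∧ P x v) fun v _ => @mem_sep _ _ _ _ (hP.fix v) _

/-- replacement -/
noncomputable def img (a : M) (F : M → M) : M :=
  Classical.epsilon fun b : M => ∀ y, y ∈ b ↔ ∃ x, x ∈ a ∧ y = F x

theorem mem_img {a : M} {F : M → M} [Tm fun v => F (v 0)] {y : M} :
    y ∈ img a F ↔ ∃ x, x ∈ a ∧ y = F x := Classical.epsilon_spec (ex_img a F) y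

instance tm_img (a : (ℕ → M) → M) (F : M → (ℕ → M) → M) [ha : Tm a]
    [hF : Tm fun v => F (v 0) fun i => v (i + 1)] : Tm fun v => img (a v) fun x => F x v := by
  have h1 : Tm fun v : ℕ → M => F (v 0) fun i => v (i + 1 + 1) :=
    hF.ren fun i => Nat.casesOn i 0 fun j => j + 2
  have h2 : Tm fun v : ℕ → M => a fun i => v (i + 1 + 1) := ha.ren fun i => i + 2
  exact tm_of_mem _ (fun y v => ∃ x, x ∈ a v ∧ y = F x v) fun v _ => @mem_img _ _ _ _ (hF.fix v) _

/-- unordered pair -/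
noncomputable def upair (a b : M) : M := (zfc.pair a b).choose

theorem mem_upair {a b x : M} : x ∈ upair a b ↔ x = a ∨ x = b := (zfc.pair a b).choose_spec x

instance tm_upair (a b : (ℕ → M) → M) [Tm a] [Tm b] : Tm fun v => upair (a v) (b v) :=
  tm_of_mem _ (fun x v => x = a v ∨ x = b v) fun _ _ => mem_upair

/-- union of a set -/
noncomputable def sUn (a : M) : M := (zfc.union a).choose

theorem mem_sUn {a x : M} : x ∈ sUn a ↔ ∃ y, y ∈ a ∧ x ∈ y := (zfc.union a).choose_spec x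

instance tm_sUn (a : (ℕ → M) → M) [ha : Tm a] : Tm fun v => sUn (a v) := by
  have h2 : Tm fun v : ℕ → M => a fun i => v (i + 1 + 1) := ha.ren fun i => i + 2
  exact tm_of_mem _ (fun x v => ∃ y, y ∈ a v ∧ x ∈ y) fun _ _ => mem_sUn

/-- subset -/
def Sub (a b : M) : Prop := ∀ x, x ∈ a → x ∈ b

instance df_sub (a b : (ℕ → M) → M) [Tm a] [Tm b] : Df fun v => Sub (a v) (b v) := by
  unfold Sub; infer_instance

theorem Sub.rfl {a : M} : Sub a a := fun _ h => h

theorem Sub.trans {a b c : M} (h : Sub a b) (h' : Sub b c) : Sub a c := fun x hx => h' x (h x hx)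

theorem Sub.antisymm {a b : M} (h : Sub a b) (h' : Sub b a) : a = b :=
  ext fun x => ⟨h x, h' x⟩

/-- power set -/
noncomputable def pow (a : M) : M := (zfc.power a).choose

theorem mem_pow {a x : M} : x ∈ pow a ↔ Sub x a := (zfc.power a).choose_spec x

instance tm_pow (a : (ℕ → M) → M) [Tm a] : Tm fun v => pow (a v) :=
  tm_of_mem _ (fun x v => Sub x (a v)) fun _ _ => mem_pow

/-- empty set -/
noncomputable def emp : M := sep (Classical.arbitrary M) fun x => ¬ x = x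

theorem not_mem_emp (x : M) : x ∉ (emp : M) := fun h => (mem_sep.1 h).2 rfl

theorem eq_emp {a : M} (h : ∀ x, x ∉ a) : a = emp :=
  ext fun x => ⟨fun hx => (h x hx).elim, fun hx => (not_mem_emp x hx).elim⟩

/-- binary union -/
noncomputable def un (a b : M) : M := sUn (upair a b)

theorem mem_un {a b x : M} : x ∈ un a b ↔ x ∈ a ∨ x ∈ b := by
  simp only [un, mem_sUn, mem_upair]
  constructor
  · rintro ⟨y, rfl | rfl, h⟩
    exacts [Or.inl h, Or.inr h]
  · rintro (h | h)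
    exacts [⟨a, Or.inl rfl, h⟩, ⟨b, Or.inr rfl, h⟩]

instance tm_un (a b : (ℕ → M) → M) [Tm a] [Tm b] : Tm fun v => un (a v) (b v) := by
  unfold un; infer_instance

/-- successor -/
noncomputable def suc (a : M) : M := un a (upair a a)

theorem mem_suc {a x : M} : x ∈ suc a ↔ x ∈ a ∨ x = a := by simp [suc, mem_un, mem_upair]

instance tm_suc (a : (ℕ → M) → M) [Tm a] : Tm fun v => suc (a v) := by
  unfold suc; infer_instance

/-- ordered pair -/
noncomputable def op (a b : M) : M := upair (upair a a) (upair a b)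

instance tm_op (a b : (ℕ → M) → M) [Tm a] [Tm b] : Tm fun v => op (a v) (b v) := by
  unfold op; infer_instance

theorem upair_inj {a b c : M} (h : upair a b = upair a c) : b = c := by
  have h1 : b ∈ upair a c := h ▸ mem_upair.2 (Or.inr rfl)
  have h2 : c ∈ upair a b := h ▸ mem_upair.2 (Or.inr rfl)
  rcases mem_upair.1 h1 with h1 | h1
  · rcases mem_upair.1 h2 with h2 | h2
    · rw [h1, h2]
    · exact h2.symm
  · exact h1

theorem op_inj {a b c d : M} (h : op a b = op c d) : a = c ∧ b = d := by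
  have h1 : upair a a ∈ op c d := h ▸ mem_upair.2 (Or.inl rfl)
  have hac : a = c := by
    rcases mem_upair.1 h1 with h1 | h1
    · have : c ∈ upair a a := h1 ▸ mem_upair.2 (Or.inl rfl)
      rcases mem_upair.1 this with h | h <;> exact h.symm
    · have : c ∈ upair a a := h1 ▸ mem_upair.2 (Or.inl rfl)
      rcases mem_upair.1 this with h | h <;> exact h.symm
  subst hac
  exact ⟨rfl, upair_inj (upair_inj h)⟩

theorem isUPair_iff {p a b : M} : IsUPair mm p a b ↔ p = upair a b :=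
  ⟨fun h => ext fun x => (h x).trans mem_upair.symm, fun h _ => h ▸ mem_upair⟩

theorem isPair_iff {p a b : M} : IsPair mm p a b ↔ p = op a b := by
  simp only [IsPair, isUPair_iff]
  exact ⟨fun h => ext fun x => (h x).trans mem_upair.symm, fun h _ => h ▸ mem_upair⟩

theorem app_iff {f x y : M} : App mm f x y ↔ op x y ∈ f := by
  simp only [App, isPair_iff]
  exact ⟨fun ⟨_, h, e⟩ => e ▸ h, fun h => ⟨_, h, rfl⟩⟩

/-- cartesian product -/
noncomputable def prd (a b : M) : M := sUn (img a fun x => img b fun y => op x y)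

theorem mem_prd {a b p : M} : p ∈ prd a b ↔ ∃ x y, x ∈ a ∧ y ∈ b ∧ p = op x y := by
  simp only [prd, mem_sUn, mem_img]
  constructor
  · rintro ⟨_, ⟨x, hx, rfl⟩, h⟩
    obtain ⟨y, hy, rfl⟩ := mem_img.1 h
    exact ⟨x, y, hx, hy, rfl⟩
  · rintro ⟨x, y, hx, hy, rfl⟩
    exact ⟨_, ⟨x, hx, rfl⟩, mem_img.2 ⟨y, hy, rfl⟩⟩

instance tm_prd (a b : (ℕ → M) → M) [ha : Tm a] [hb : Tm b] : Tm fun v => prd (a v) (b v) := by
  unfold prd; infer_instance

/-- value of a function -/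
noncomputable def ap (f x : M) : M := sUn (sep (sUn (sUn f)) fun y => op x y ∈ f)

instance tm_ap (a b : (ℕ → M) → M) [Tm a] [Tm b] : Tm fun v => ap (a v) (b v) := by
  unfold ap; infer_instance

theorem ap_eq {f x y : M} (h : op x y ∈ f) (hu : ∀ y', op x y' ∈ f → y' = y) : ap f x = y := by
  refine ext fun z => ?_
  simp only [ap, mem_sUn, mem_sep]
  constructor
  · rintro ⟨y', ⟨-, h1⟩, h2⟩
    exact hu y' h1 ▸ h2
  · intro hz
    exact ⟨y, ⟨⟨upair x y, ⟨op x y, h, mem_upair.2 (Or.inr rfl)⟩, mem_upair.2 (Or.inr rfl)⟩, h⟩,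
      hz⟩

/-- function abstraction -/
noncomputable def lam (a : M) (F : M → M) : M := img a fun x => op x (F x)

instance tm_lam (a : (ℕ → M) → M) (F : M → (ℕ → M) → M) [Tm a]
    [Tm fun v => F (v 0) fun i => v (i + 1)] : Tm fun v => lam (a v) fun x => F x v := by
  unfold lam; infer_instance

theorem mem_lam {a : M} {F : M → M} [Tm fun v => F (v 0)] {p : M} :
    p ∈ lam a F ↔ ∃ x, x ∈ a ∧ p = op x (F x) := mem_img

theorem op_mem_lam {a : M} {F : M → M} [Tm fun v => F (v 0)] {x y : M} :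
    op x y ∈ lam a F ↔ x ∈ a ∧ y = F x := by
  rw [mem_lam]
  constructor
  · rintro ⟨x', hx, e⟩
    obtain ⟨rfl, rfl⟩ := op_inj e
    exact ⟨hx, rfl⟩
  · rintro ⟨hx, rfl⟩
    exact ⟨x, hx, rfl⟩

theorem ap_lam {a : M} {F : M → M} [Tm fun v => F (v 0)] {x : M} (hx : x ∈ a) :
    ap (lam a F) x = F x :=
  ap_eq (op_mem_lam.2 ⟨hx, rfl⟩) fun _ h => (op_mem_lam.1 h).2

theorem lam_congr {a : M} {F G : M → M} [Tm fun v => F (v 0)] [Tm fun v => G (v 0)]
    (h : ∀ x, x ∈ a → F x = G x) : lam a F = lam a G := by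
  refine ext fun p => ?_
  simp only [mem_lam]
  exact exists_congr fun x => and_congr_right fun hx => by rw [h x hx]

theorem isFun_lam {a b : M} {F : M → M} [Tm fun v => F (v 0)] (h : ∀ x, x ∈ a → F x ∈ b) :
    IsFun mm (lam a F) a b := by
  refine ⟨fun p hp => ?_, fun x hx => ⟨F x, app_iff.2 (op_mem_lam.2 ⟨hx, rfl⟩)⟩,
    fun x y y' h1 h2 => ?_⟩
  · obtain ⟨x, hx, rfl⟩ := mem_lam.1 hp
    exact ⟨x, F x, isPair_iff.2 rfl, hx, h x hx⟩
  · rw [(op_mem_lam.1 (app_iff.1 h1)).2, (op_mem_lam.1 (app_iff.1 h2)).2]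

theorem app_lam {a : M} {F : M → M} [Tm fun v => F (v 0)] {x y : M} :
    App mm (lam a F) x y ↔ x ∈ a ∧ y = F x := app_iff.trans op_mem_lam

theorem fun_app {f a b : M} (h : IsFun mm f a b) {x y : M} :
    App mm f x y ↔ x ∈ a ∧ y = ap f x := by
  have key : ∀ y, App mm f x y → ap f x = y := fun y hy =>
    ap_eq (app_iff.1 hy) fun y' hy' => h.2.2 x y' y (app_iff.2 hy') hy
  constructor
  · intro hy
    obtain ⟨x', y', e, hx, -⟩ := h.1 _ (app_iff.1 hy)
    obtain ⟨rfl, rfl⟩ := op_inj (isPair_iff.1 e)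
    exact ⟨hx, (key _ hy).symm⟩
  · rintro ⟨hx, rfl⟩
    obtain ⟨y, hy⟩ := h.2.1 x hx
    rw [key y hy]; exact hy

theorem fun_mem {f a b : M} (h : IsFun mm f a b) {x : M} (hx : x ∈ a) : ap f x ∈ b := by
  obtain ⟨x', y', e, -, hy⟩ := h.1 _ (app_iff.1 ((fun_app h).2 ⟨hx, rfl⟩))
  obtain ⟨-, e2⟩ := op_inj (isPair_iff.1 e)
  rw [e2]; exact hy

/-- choice with a bounded range -/
theorem choice (a b : M) (R : M → M → Prop) [hR : Df fun v => R (v 0) (v 1)]
    (h : ∀ x, x ∈ a → ∃ y, y ∈ b ∧ R x y) : ∃ f, ∀ x, x ∈ a → ap f x ∈ b ∧ R x (ap f x) := by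
  have hR' : ∀ (s t : (ℕ → M) → M) [Tm s] [Tm t], Df fun v => R (s v) (t v) := fun s t hs ht =>
    hR.out.subst (fun i => Nat.casesOn i s fun _ => t) fun i => by
      cases i with
      | zero => exact hs
      | succ j => exact ht
  obtain ⟨c, hc⟩ := zfc.choice
    (img a fun x => sep (prd a b) fun p => ∃ y, y ∈ b ∧ p = op x y ∧ R x y)
    (fun s hs => by
      obtain ⟨x, hx, rfl⟩ := mem_img.1 hs
      obtain ⟨y, hy, hxy⟩ := h x hx
      exact ⟨op x y, mem_sep.2 ⟨mem_prd.2 ⟨x, y, hx, hy, rfl⟩, y, hy, rfl, hxy⟩⟩)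
    (fun s t z hs ht h1 h2 => by
      obtain ⟨x, hx, rfl⟩ := mem_img.1 hs
      obtain ⟨x', hx', rfl⟩ := mem_img.1 ht
      obtain ⟨-, y, -, e, -⟩ := mem_sep.1 h1
      obtain ⟨-, y', -, e', -⟩ := mem_sep.1 h2
      rw [(op_inj (e.symm.trans e')).1])
  refine ⟨sep c fun p => ∃ x y, x ∈ a ∧ y ∈ b ∧ p = op x y ∧ R x y, fun x hx => ?_⟩
  obtain ⟨z, ⟨hz1, hz2⟩, hu⟩ := hc _ (mem_img.2 ⟨x, hx, rfl⟩)
  obtain ⟨-, y, hy, rfl, hxy⟩ := mem_sep.1 hz1
  have : ap (sep c fun p => ∃ x y, x ∈ a ∧ y ∈ b ∧ p = op x y ∧ R x y) x = y := by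
    refine ap_eq (mem_sep.2 ⟨hz2, x, y, hx, hy, rfl, hxy⟩) fun y' hy' => ?_
    obtain ⟨h1, x'', y'', -, h2, e, h3⟩ := mem_sep.1 hy'
    obtain ⟨rfl, rfl⟩ := op_inj e
    exact (op_inj (hu _ ⟨mem_sep.2 ⟨mem_prd.2 ⟨_, _, hx, h2, rfl⟩, _, h2, rfl, h3⟩, h1⟩)).2
  rw [this]
  exact ⟨hy, hxy⟩

end Pool.Agent.P.MP_5f3b23_lc.Zf
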