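import Pool.Agent.P.MP_5f3b23_lc.RowCore

/-! An unconditional colouring with `λ` rows. -/

namespace Pool.Agent.P.MP_5f3b23_lc

open Cardinal Set

universe u

theorem place {lam θ : Cardinal.{u}} (h0 : ℵ₀ ≤ lam) (hθ : θ ≤ lam) {I : Type u} (hI : #I ≤ θ)
    (φ : I → (Order.succ lam).ord.ToType → lam.ord.ToType) :
    ∃ (d : (Order.succ lam).ord.ToType → (Order.succ lam).ord.ToType → lam.ord.ToType)
      (γ : (Order.succ lam).ord.ToType), ∀ α, γ < α →
      (∀ B ⊆ Iio α, IsLUB B α → ∃ i, ∃ B' ⊆ B, IsLUB B' α ∧ InjOn (φ i) B') →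
      α ∈ injSetRows θ d := by
  classical
  have hK : #(Order.succ lam).ord.ToType = Order.succ lam := Cardinal.mk_ord_toType _
  obtain ⟨r⟩ : Nonempty (I ↪ {η : (Order.succ lam).ord.ToType | #(Iio η) < θ}) :=
    (Cardinal.le_def _ _).1 (hI.trans (rows_ge (by rw [hK]; exact hθ.trans (Order.le_succ _))))
  obtain ⟨l₀⟩ : Nonempty lam.ord.ToType := by
    rw [← mk_ne_zero_iff, Cardinal.mk_ord_toType]; exact (aleph0_pos.trans_le h0).ne'
  obtain ⟨γ, hγ⟩ := bounded_of_le h0 (s := range fun i => (r i).1) (mk_range_le.trans (hI.trans hθ))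
  refine ⟨fun η β => if h : ∃ i, (r i).1 = η then φ h.choose β else l₀, γ,
    fun α hα H B hB hlub => ?_⟩
  obtain ⟨i, B', h1, h2, h3⟩ := H B hB hlub
  refine ⟨(r i).1, (hγ _ ⟨i, rfl⟩).trans hα, (r i).2, B', h1, h2, ?_⟩
  have h : ∃ j, (r j).1 = (r i).1 := ⟨i, rfl⟩
  have hj : h.choose = i := r.injective (Subtype.ext h.choose_spec)
  simpa only [h, dif_pos, hj] using h3

/-- Coordinates of an injection into a power separate a cofinal subset, if the cofinality is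
closed under the power. -/
theorem coord {K S L : Type u} [LinearOrder K] [WellFoundedLT K] (g : K ↪ (S → L)) {α : K}
    (hinf : ℵ₀ ≤ Order.cof (Iio α)) (hS : #S < Order.cof (Iio α))
    (hpow : ∀ ν < Order.cof (Iio α), ν ^ #S < Order.cof (Iio α))
    {B : Set K} (hB : B ⊆ Iio α) (hlub : IsLUB B α) :
    ∃ i, ∃ B' ⊆ B, IsLUB B' α ∧ InjOn (fun β => g β i) B' := by
  classical
  set μ := Order.cof (Iio α) with hμ
  have hcof : IsCofinal {x : Iio α | x.1 ∈ B} := fun x => by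
    obtain ⟨b, hb, hxb⟩ := (lt_isLUB_iff hlub).1 x.2
    exact ⟨⟨b, hB hb⟩, hb, hxb.le⟩
  obtain ⟨t, ht, htc, htt⟩ := Ordinal.exists_ord_cof_eq_of_isCofinal hcof
  have htcard : #t = μ := by
    rw [← Ordinal.card_type (α := t) (· < ·), htt, card_ord]
  have hreg : μ.IsRegular := ⟨hinf, (Order.cof_ord_cof (Iio α)).ge⟩
  have hex : ∃ i, μ ≤ #(range fun x : t => g x.1.1 i) := by
    by_contra hno
    push Not at hno
    have hsup : iSup (fun i => #(range fun x : t => g x.1.1 i)) < μ :=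
      Cardinal.iSup_lt_of_lt_cof_ord (by rw [hreg.cof_ord]; exact hS) hno
    have h1 : #t ≤ #(∀ i, range fun x : t => g x.1.1 i) :=
      mk_le_of_injective (f := fun x i => ⟨g x.1.1 i, x, rfl⟩) fun x y e =>
        Subtype.ext (Subtype.ext (g.injective (funext fun i =>
          congrArg Subtype.val (congrFun e i))))
    rw [mk_pi, htcard] at h1
    have h2 := h1.trans (prod_le_prod _ (fun _ => iSup fun i => #(range fun x : t => g x.1.1 i))
      fun i => le_ciSup Cardinal.bddAbove_of_small i)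
    rw [prod_const'] at h2
    exact absurd h2 (not_le.2 (hpow _ hsup))
  obtain ⟨i, hi⟩ := hex
  let s : range (fun x : t => g x.1.1 i) → t := fun v => v.2.choose
  have hs : ∀ v, g (s v).1.1 i = v.1 := fun v => v.2.choose_spec
  refine ⟨i, range fun v => (s v).1.1, ?_, ⟨?_, ?_⟩, ?_⟩
  · rintro _ ⟨v, rfl⟩; exact ht (s v).2
  · rintro _ ⟨v, rfl⟩; exact (s v).1.2.le
  · intro c hc
    by_contra hca
    rw [not_le] at hca
    obtain ⟨b, hb, hcb⟩ := (lt_isLUB_iff hlub).1 hca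
    obtain ⟨y, hy, hby⟩ := htc ⟨b, hB hb⟩
    have h1 : #(Iio (⟨y, hy⟩ : t)) < μ := by
      have := Ordinal.typein_lt_type (α := t) (· < ·) ⟨y, hy⟩
      rw [htt, lt_ord, Ordinal.card_typein] at this
      exact this
    have h2 : #(range fun x : t => g x.1.1 i) ≤ #(Iio (⟨y, hy⟩ : t)) :=
      mk_le_of_injective (f := fun v => ⟨s v, by
        have k1 : (s v).1.1 ≤ c := hc ⟨v, rfl⟩
        have k2 : b ≤ y.1 := hby
        exact (k1.trans_lt hcb).trans_le k2⟩) fun v w e =>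
          Subtype.ext (by rw [← hs v, ← hs w, show s v = s w from congrArg Subtype.val e])
    exact absurd (hi.trans h2) (not_le.2 h1)
  · rintro _ ⟨v, rfl⟩ _ ⟨w, rfl⟩ e
    have : v = w := Subtype.ext (by rw [← hs v, ← hs w]; exact e)
    rw [this]

/-- Initial segments separate a cofinal subset of small cofinality. -/
theorem segs {K : Type u} [LinearOrder K] {σ : Cardinal.{u}} (hσ : σ.IsRegular) {V : Type u}
    (g : K ↪ (σ.ord.ToType → V)) {α : K} (hα : Order.cof (Iio α) < σ)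
    {B : Set K} (hB : B ⊆ Iio α) (hlub : IsLUB B α) :
    ∃ i : σ.ord.ToType, ∃ B' ⊆ B, IsLUB B' α ∧ InjOn (fun β (t : Iio i) => g β t.1) B' := by
  obtain ⟨B', hB', hlub', hc⟩ := exists_small_cofinal hB hlub
  have ht : ∀ p : {p : B' × B' // p.1 ≠ p.2}, ∃ t, g p.1.1.1 t ≠ g p.1.2.1 t := fun p =>
    Function.ne_iff.1 fun e => p.2 (Subtype.ext (g.injective e))
  choose t ht using ht
  obtain ⟨i, hi⟩ := bounded_of_lt_cof (s := range t) (by
    rw [hσ.cof_ord]
    refine lt_of_le_of_lt (mk_range_le.trans ((mk_subtype_le _).trans ?_))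
      (mul_lt_of_lt hσ.1 hα hα)
    simp only [mk_prod, lift_id]
    exact mul_le_mul' hc hc)
  refine ⟨i, B', hB', hlub', fun β hβ β' hβ' e => ?_⟩
  by_contra hne
  have hp : (⟨β, hβ⟩ : B') ≠ ⟨β', hβ'⟩ := fun k => hne (congrArg Subtype.val k)
  exact ht ⟨(⟨β, hβ⟩, ⟨β', hβ'⟩), hp⟩ (congrFun e ⟨_, hi _ ⟨_, rfl⟩⟩)

theorem hausdorff {κ : Cardinal.{u}} (hκ : ℵ₀ ≤ κ) :
    Order.succ κ ^ ℵ₀ ≤ Order.succ κ * κ ^ ℵ₀ := by
  have hK : #(Order.succ κ).ord.ToType = Order.succ κ := Cardinal.mk_ord_toType _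
  have h1 : (Set.univ : Set (ULift.{u} ℕ → (Order.succ κ).ord.ToType)) ⊆
      ⋃ γ : (Order.succ κ).ord.ToType, range fun (f : ULift.{u} ℕ → Iio γ) n => (f n).1 := by
    intro f _
    obtain ⟨γ, hγ⟩ := bounded_of_le hκ (s := range f) (mk_range_le.trans (by simpa using hκ))
    exact mem_iUnion.2 ⟨γ, fun n => ⟨f n, hγ _ ⟨n, rfl⟩⟩, rfl⟩
  have h2 := (mk_le_mk_of_subset h1).trans (mk_iUnion_le _)
  rw [mk_univ, ← power_def, hK] at h2
  simp only [mk_uLift, mk_nat, lift_aleph0] at h2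
  refine h2.trans (mul_le_mul' le_rfl (ciSup_le' fun γ => mk_range_le.trans ?_))
  rw [← power_def]
  simp only [mk_uLift, mk_nat, lift_aleph0]
  exact power_le_power_right (Order.lt_succ_iff.1 (Cardinal.mk_Iio_toType_ord_lt γ))

theorem below (a : Ordinal.{u}) {ν : Cardinal.{u}} (hν : ν < ℵ_ (a + Ordinal.omega0)) :
    ν ^ ℵ₀ ≤ max ν (ℵ_ a ^ ℵ₀) ∧ (ℵ_ a < ν → ν.IsRegular) := by
  have key : ∀ n : ℕ, ∀ ν : Cardinal.{u}, ν ≤ ℵ_ (a + n) →
      ν ^ ℵ₀ ≤ max ν (ℵ_ a ^ ℵ₀) ∧ (ℵ_ a < ν → ν.IsRegular) := by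
    intro n
    induction n with
    | zero =>
      intro ν h
      rw [Nat.cast_zero, add_zero] at h
      exact ⟨(power_le_power_right h).trans (le_max_right _ _), fun k => absurd h (not_le.2 k)⟩
    | succ n ih =>
      intro ν h
      rw [Nat.cast_succ, ← add_assoc, ← succ_aleph] at h
      rcases h.eq_or_lt with e | h
      · have h0 := aleph0_le_aleph (a + n)
        rw [e]
        refine ⟨(hausdorff h0).trans ?_, fun _ => isRegular_succ h0⟩
        have hm : ℵ₀ ≤ max (Order.succ (ℵ_ (a + n))) (ℵ_ a ^ ℵ₀) :=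
          (h0.trans (Order.le_succ _)).trans (le_max_left _ _)
        exact mul_le_of_le hm (le_max_left _ _)
          ((ih _ le_rfl).1.trans (max_le_max (Order.le_succ _) le_rfl))
      · exact ih ν (Order.lt_succ_iff.1 h)
  rcases lt_or_ge ν ℵ₀ with h | h
  · exact key 0 ν (h.le.trans (aleph0_le_aleph _))
  · obtain ⟨b, rfl⟩ := mem_range_aleph_iff.2 h
    obtain ⟨d, hd, hb⟩ := (Ordinal.lt_add_iff Ordinal.omega0_ne_zero).1 (aleph_lt_aleph.1 hν)
    obtain ⟨n, rfl⟩ := Ordinal.lt_omega0.1 hd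
    exact key n _ (aleph_le_aleph.2 hb)

theorem zfc_main (a : Ordinal.{u}) (lam σ : Cardinal.{u}) (hlam : lam = ℵ_ (a + Ordinal.omega0))
    (hτ : 2 ^ (ℵ_ a ^ ℵ₀) < lam) (hσ : σ < lam) (hσ2 : lam ≤ 2 ^ σ) :
    ∃ (d : (Order.succ lam).ord.ToType → (Order.succ lam).ord.ToType → lam.ord.ToType)
      (γ : (Order.succ lam).ord.ToType), ∀ α, γ < α → α ∈ injSetRows σ d := by
  classical
  have h0 : ℵ₀ ≤ lam := hlam ▸ aleph0_le_aleph _
  have hK : #(Order.succ lam).ord.ToType = Order.succ lam := Cardinal.mk_ord_toType _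
  have hL : #(lam.ord.ToType) = lam := Cardinal.mk_ord_toType _
  have hcof : lam.ord.cof = ℵ₀ := by
    rw [hlam, ord_aleph, Ordinal.cof_omega (Ordinal.isSuccLimit_add a Ordinal.isSuccLimit_omega0),
      Ordinal.cof_add _ Ordinal.omega0_ne_zero, Ordinal.cof_omega0]
  have ha0 := aleph0_le_aleph a
  have haτ : ℵ_ a ≤ ℵ_ a ^ ℵ₀ := self_le_power _ one_le_aleph0
  have hne : ({s | lam ≤ 2 ^ s} : Set Cardinal.{u}).Nonempty := ⟨σ, hσ2⟩
  set s := wellFounded_lt.min _ hne with hs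
  have hs1 : lam ≤ 2 ^ s := wellFounded_lt.min_mem _ hne
  have hs2 : ∀ ρ < s, 2 ^ ρ < lam := fun ρ hρ => by
    by_contra h
    exact wellFounded_lt.not_lt_min {s | lam ≤ 2 ^ s} (x := ρ) (not_lt.1 h) hρ
  have hsσ : s ≤ σ := not_lt.1 fun h => absurd hσ2 (not_le.2 (hs2 σ h))
  have hτs : ℵ_ a ^ ℵ₀ < s := by
    by_contra h
    exact absurd (hs1.trans (power_le_power_left two_ne_zero (not_lt.1 h))) (not_le.2 hτ)
  have hreg : s.IsRegular := (below a (hlam ▸ hsσ.trans_lt hσ)).2 (haτ.trans_lt hτs)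
  have hs3 : lam < 2 ^ s := lt_of_le_of_ne hs1 fun e => by
    have := lt_cof_ord_power hreg.1 Cardinal.one_lt_two
    rw [← e, hcof] at this
    exact absurd hreg.1 (not_le.2 this)
  obtain ⟨g₁⟩ : Nonempty ((Order.succ lam).ord.ToType ↪ (s.ord.ToType → ULift.{u} Bool)) :=
    (Cardinal.le_def _ _).1 (by
      rw [hK, ← power_def, Cardinal.mk_ord_toType]
      simpa using Order.succ_le_of_lt hs3)
  obtain ⟨g₂⟩ : Nonempty ((Order.succ lam).ord.ToType ↪ (ULift.{u} ℕ → lam.ord.ToType)) :=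
    (Cardinal.le_def _ _).1 (by
      have := lt_power_cof_ord h0
      rw [hcof] at this
      rw [hK, ← power_def, hL]
      simpa using Order.succ_le_of_lt this)
  have hcode : ∀ i : s.ord.ToType, Nonempty ((Iio i → ULift.{u} Bool) ↪ lam.ord.ToType) :=
    fun i => (Cardinal.le_def _ _).1 (by
      rw [hL, ← power_def]
      simpa using (hs2 _ (Cardinal.mk_Iio_toType_ord_lt i)).le)
  have code := fun i => (hcode i).some
  obtain ⟨d, γ, H⟩ := place (θ := σ) h0 hσ.le (I := s.ord.ToType ⊕ ULift.{u} ℕ)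
    (by
      simp only [mk_sum, lift_id, Cardinal.mk_ord_toType, mk_uLift, mk_nat, lift_aleph0]
      exact (add_le_of_le hreg.1 le_rfl hreg.1).trans hsσ)
    (Sum.elim (fun i β => code i fun t => g₁ β t.1) fun n β => g₂ β n)
  refine ⟨d, γ, fun α hα => H α hα fun B hB hlub => ?_⟩
  rcases lt_or_ge (Order.cof (Iio α)) s with h | h
  · obtain ⟨i, B', h1, h2, h3⟩ := segs hreg g₁ h hB hlub
    exact ⟨Sum.inl i, B', h1, h2, fun β hβ β' hβ' e => h3 hβ hβ' ((code i).injective e)⟩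
  · have hω : ℵ₀ < Order.cof (Iio α) := ((ha0.trans haτ).trans_lt hτs).trans_le h
    have hle : Order.cof (Iio α) ≤ lam := (Order.cof_le_cardinalMk _).trans
      (Order.lt_succ_iff.1 (Cardinal.mk_Iio_toType_ord_lt α))
    obtain ⟨n, B', h1, h2, h3⟩ := coord g₂ hω.le (by simpa using hω) (fun ν hν => by
      simp only [mk_uLift, mk_nat, lift_aleph0]
      exact (below a (hlam ▸ hν.trans_le hle)).1.trans_lt (max_lt hν (hτs.trans_le h))) hB hlub
    exact ⟨Sum.inr n, B', h1, h2, h3⟩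

end Pool.Agent.P.MP_5f3b23_lc
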